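import Mathlib

set_option autoImplicit false

/-! The values of a random polynomial modulo `q` at any `K` points are independent. -/

namespace Pool.Agent.J4.H36.KP
open Finset

lemma hom_avg {G G' : Type} [AddGroup G] [AddGroup G'] [Fintype G] [Fintype G'] (φ : G →+ G')
    (hφ : Function.Surjective φ) (f : G' → ℝ) :
    (∑ g, f (φ g)) / (Fintype.card G : ℝ) = (∑ g', f g') / (Fintype.card G' : ℝ) := by
  classical
  obtain ⟨k, hk⟩ : ∃ k : ℕ, k = #{g : G | φ g = 0} := ⟨_, rfl⟩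
  have hfib : ∀ g' : G', #{g : G | φ g = g'} = k := by
    intro g'
    obtain ⟨a, rfl⟩ := hφ g'
    rw [hk]
    refine card_bij' (fun g _ => g - a) (fun g _ => g + a) ?_ ?_ ?_ ?_
    · intro g hg
      rw [mem_filter] at hg ⊢
      exact ⟨mem_univ _, by rw [map_sub, hg.2, sub_self]⟩
    · intro g hg
      rw [mem_filter] at hg ⊢
      exact ⟨mem_univ _, by rw [map_add, hg.2, zero_add]⟩
    · intro g _
      exact sub_add_cancel g a
    · intro g _
      exact add_sub_cancel_right g a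
  have h1 : ∑ g, f (φ g) = k * ∑ g', f g' := by
    rw [← sum_fiberwise univ φ (fun g => f (φ g)), mul_sum]
    apply sum_congr rfl
    intro g' _
    rw [sum_congr rfl (fun g hg => by rw [(mem_filter.1 hg).2]), sum_const, nsmul_eq_mul, hfib]
  have h2 : (Fintype.card G : ℝ) = k * Fintype.card G' := by
    have h3 : Fintype.card G = ∑ g' : G', #{g : G | φ g = g'} := by
      rw [← card_univ]
      exact card_eq_sum_card_fiberwise (fun _ _ => by simp)
    rw [h3]
    simp only [hfib, sum_const, card_univ, smul_eq_mul]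
    push_cast
    ring
  have hk0 : (k : ℝ) ≠ 0 := by
    intro h0
    rw [h0, zero_mul] at h2
    have : 0 < Fintype.card G := Fintype.card_pos
    have h4 : (0 : ℝ) < Fintype.card G := by exact_mod_cast this
    linarith
  rw [h1, h2, mul_div_mul_left _ _ hk0]

/-- the value at `d` of the polynomial `c_0 x + c_1 x ^ 2 + ... ` -/
def val {K q : ℕ} (c : Fin K → ZMod q) (d : ℕ) : ZMod q := ∑ i : Fin K, c i * (d : ZMod q) ^ ((i : ℕ) + 1)

/-- the values at the points of `S` -/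
def evalHom {K q : ℕ} (S : Finset ℕ) : (Fin K → ZMod q) →+ (S → ZMod q) where
  toFun c d := val c d
  map_zero' := by
    ext d
    simp [val]
  map_add' c c' := by
    ext d
    simp [val, add_mul, sum_add_distrib]

open Polynomial in
lemma evalHom_surj {K q H : ℕ} [Fact q.Prime] (hH : H < q) (S : Finset ℕ) (hS : S ⊆ Icc 1 H) (hSK : #S ≤ K) :
    Function.Surjective (evalHom (K := K) (q := q) S) := by
  classical
  intro z
  have hlt : ∀ d ∈ S, d < q := fun d hd => by
    have := mem_Icc.1 (hS hd)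
    omega
  have hne : ∀ d ∈ S, (d : ZMod q) ≠ 0 := by
    intro d hd h0
    rw [ZMod.natCast_eq_zero_iff] at h0
    have h1 := mem_Icc.1 (hS hd)
    have := Nat.le_of_dvd (by omega) h0
    have := hlt d hd
    omega
  have hinj : Set.InjOn (fun d : ℕ => (d : ZMod q)) S := by
    intro x hx y hy hxy
    simp only at hxy
    rw [ZMod.natCast_eq_natCast_iff'] at hxy
    rwa [Nat.mod_eq_of_lt (hlt x hx), Nat.mod_eq_of_lt (hlt y hy)] at hxy
  obtain ⟨r, hr⟩ : ∃ r : ℕ → ZMod q, ∀ d, r d = if h : d ∈ S then z ⟨d, h⟩ * (d : ZMod q)⁻¹ else 0 := ⟨_, fun _ => rfl⟩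
  obtain ⟨P, hP⟩ : ∃ P : (ZMod q)[X], P = Lagrange.interpolate S (fun d : ℕ => (d : ZMod q)) r := ⟨_, rfl⟩
  have hdeg : P.degree < K := by
    rw [hP]
    refine lt_of_lt_of_le (Lagrange.degree_interpolate_lt r hinj) ?_
    exact_mod_cast hSK
  have hev : ∀ x : ZMod q, P.eval x = ∑ i : Fin K, P.coeff i * x ^ (i : ℕ) := by
    intro x
    rw [Fin.sum_univ_eq_sum_range (fun i => P.coeff i * x ^ i) K]
    by_cases hP0 : P = 0
    · rw [hP0]
      simp
    · exact eval_eq_sum_range' ((natDegree_lt_iff_degree_lt hP0).2 hdeg) x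
  refine ⟨fun i => P.coeff i, ?_⟩
  ext d
  change val (fun i : Fin K => P.coeff i) (d : ℕ) = z d
  unfold val
  have h1 : ∑ i : Fin K, P.coeff i * ((d : ℕ) : ZMod q) ^ ((i : ℕ) + 1) = ((d : ℕ) : ZMod q) * P.eval (((d : ℕ) : ZMod q)) := by
    rw [hev, mul_sum]
    apply sum_congr rfl
    intro i _
    ring
  have h2 : P.eval (((d : ℕ) : ZMod q)) = r d := by
    rw [hP]
    exact Lagrange.eval_interpolate_at_node r hinj d.2
  rw [h1, h2, hr, dif_pos d.2]
  field_simp [hne d d.2]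

/-- the extension of a function on a set of natural numbers by zero -/
def ext {q : ℕ} (S : Finset ℕ) (g : S → ZMod q) (d : ℕ) : ZMod q := if h : d ∈ S then g ⟨d, h⟩ else 0

/-- the restriction to a subset -/
def resHom {q : ℕ} (I S : Finset ℕ) (hS : S ⊆ I) : (I → ZMod q) →+ (S → ZMod q) where
  toFun g d := g ⟨d, hS d.2⟩
  map_zero' := rfl
  map_add' _ _ := rfl

lemma resHom_surj {q : ℕ} (I S : Finset ℕ) (hS : S ⊆ I) : Function.Surjective (resHom (q := q) I S hS) := by
  intro z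
  refine ⟨fun d => ext S z d, ?_⟩
  ext d
  change ext S z (d : ℕ) = z d
  unfold ext
  rw [dif_pos d.2]

/-- the linear statistic -/
noncomputable def TT {q : ℕ} (H : ℕ) (u : ℕ → ℝ) (ψ : ℕ → ZMod q → ℝ) (x : ℕ → ZMod q) : ℝ := ∑ d ∈ Icc 1 H, u d * ψ d (x d)

/-- the moments of order at most `K` agree with the ones for independent uniform values -/
lemma mom_eq {K q H : ℕ} [Fact q.Prime] (hH : H < q) (u : ℕ → ℝ) (ψ : ℕ → ZMod q → ℝ) (j : ℕ) (hj : j ≤ K) :
    (∑ c : Fin K → ZMod q, TT H u ψ (val c) ^ j) / (Fintype.card (Fin K → ZMod q) : ℝ) =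
    (∑ g : (Icc 1 H : Finset ℕ) → ZMod q, TT H u ψ (ext (Icc 1 H) g) ^ j) /
      (Fintype.card ((Icc 1 H : Finset ℕ) → ZMod q) : ℝ) := by
  classical
  have h1 : ∀ x : ℕ → ZMod q, TT H u ψ x ^ j =
      ∑ t ∈ Fintype.piFinset (fun _ : Fin j => Icc 1 H), ∏ k, (u (t k) * ψ (t k) (x (t k))) := by
    intro x
    unfold TT
    rw [← Finset.prod_univ_sum (fun _ : Fin j => Icc 1 H) (fun _ d => u d * ψ d (x d))]
    simp
  simp only [h1]
  rw [sum_comm, sum_div]
  conv_rhs => rw [sum_comm, sum_div]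
  apply sum_congr rfl
  intro t ht
  rw [Fintype.mem_piFinset] at ht
  obtain ⟨S, hS⟩ : ∃ S : Finset ℕ, S = univ.image t := ⟨_, rfl⟩
  have hSI : S ⊆ Icc 1 H := by
    intro x hx
    rw [hS, mem_image] at hx
    obtain ⟨k, _, rfl⟩ := hx
    exact ht k
  have hSK : #S ≤ K := by
    rw [hS]
    refine card_image_le.trans ?_
    simpa using hj
  have hmem : ∀ k, t k ∈ S := fun k => by rw [hS]; exact mem_image_of_mem _ (mem_univ _)
  obtain ⟨f, hf⟩ : ∃ f : (S → ZMod q) → ℝ, ∀ z, f z = ∏ k, (u (t k) * ψ (t k) (z ⟨t k, hmem k⟩)) := ⟨_, fun _ => rfl⟩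
  have e1 := hom_avg (evalHom (K := K) (q := q) S) (evalHom_surj hH S hSI hSK) f
  have e2 := hom_avg (resHom (q := q) (Icc 1 H) S hSI) (resHom_surj (Icc 1 H) S hSI) f
  have e3 : ∀ c : Fin K → ZMod q, f (evalHom S c) = ∏ k, (u (t k) * ψ (t k) (val c (t k))) := fun c => hf _
  have e4 : ∀ g : (Icc 1 H : Finset ℕ) → ZMod q, f (resHom (Icc 1 H) S hSI g) =
      ∏ k, (u (t k) * ψ (t k) (ext (Icc 1 H) g (t k))) := by
    intro g
    rw [hf]
    apply prod_congr rfl
    intro k _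
    unfold ext
    rw [dif_pos (ht k)]
    rfl
  simp only [e3] at e1
  simp only [e4] at e2
  rw [e1, e2]

end Pool.Agent.J4.H36.KP
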