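import Pool.Agent.J4.H36.MG.Prod
import Pool.Agent.J4.H36.KW.Taylor
import Pool.Agent.J4.H36.KP.Ind

set_option autoImplicit false

/-! The characteristic function of a linear statistic of a random polynomial. -/

namespace Pool.Agent.J4.H36.KP
open Finset Complex
open Pool.Agent.J4.H36.MG (exp_taylor prod_diffc)
open Pool.Agent.J4.H36.KW (exp_rem pow_le_exp)

/-- normalised test functions -/
structure Test (q H : ℕ) [NeZero q] (B : ℝ) (ψ : ℕ → ZMod q → ℝ) : Prop where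
  mean : ∀ d ∈ Icc 1 H, ∑ z, ψ d z = 0
  var : ∀ d ∈ Icc 1 H, ∑ z, ψ d z ^ 2 = q
  bd : ∀ d ∈ Icc 1 H, ∀ z, |ψ d z| ≤ B

lemma prod_avg {𝕜 : Type} [Field 𝕜] (q H : ℕ) [NeZero q] (h : ℕ → ZMod q → 𝕜) :
    (∑ g : (Icc 1 H : Finset ℕ) → ZMod q, ∏ d ∈ Icc 1 H, h d (ext (Icc 1 H) g d)) /
      (Fintype.card ((Icc 1 H : Finset ℕ) → ZMod q) : 𝕜) = ∏ d ∈ Icc 1 H, ((∑ z, h d z) / (q : 𝕜)) := by
  classical
  have e1 : ∀ g : (Icc 1 H : Finset ℕ) → ZMod q, ∏ d ∈ Icc 1 H, h d (ext (Icc 1 H) g d) =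
      ∏ d : (Icc 1 H : Finset ℕ), h d (g d) := by
    intro g
    rw [← prod_coe_sort]
    apply prod_congr rfl
    intro d _
    congr 1
    unfold ext
    rw [dif_pos d.2]
  simp only [e1]
  have e2 := (Finset.prod_univ_sum (fun _ : (Icc 1 H : Finset ℕ) => (univ : Finset (ZMod q))) (fun d z => h d z)).symm
  rw [Fintype.piFinset_univ] at e2
  rw [e2, prod_coe_sort (Icc 1 H) (fun d => ∑ z, h d z), Fintype.card_fun, ZMod.card, Fintype.card_coe, prod_div_distrib,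
    prod_const]
  push_cast
  rfl

lemma factor (q H : ℕ) [NeZero q] (B : ℝ) (hB : 1 ≤ B) (ψ : ℕ → ZMod q → ℝ) (hψ : Test q H B ψ) (d : ℕ) (hd : d ∈ Icc 1 H)
    (u : ℝ) (hu : |u| * B ≤ 1) :
    ‖(∑ z, cexp (((u * ψ d z : ℝ) : ℂ) * I)) / (q : ℂ) - ((Real.exp (-(u ^ 2 / 2)) : ℝ) : ℂ)‖ ≤ 2 * B ^ 3 * |u| ^ 3 := by
  have hq0 : (0 : ℝ) < q := by exact_mod_cast (NeZero.pos q)
  have hqc : ((q : ℝ) : ℂ) ≠ 0 := by exact_mod_cast hq0.ne'
  have a0 := abs_nonneg u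
  have hu1 : |u| ≤ 1 := by nlinarith
  obtain ⟨E, hE⟩ : ∃ E : ZMod q → ℂ, ∀ z, E z = cexp (((u * ψ d z : ℝ) : ℂ) * I) -
      (1 + ((u * ψ d z : ℝ) : ℂ) * I - ((u * ψ d z : ℝ) : ℂ) ^ 2 / 2) := ⟨_, fun _ => rfl⟩
  have hEb : ∀ z, ‖E z‖ ≤ B ^ 3 * |u| ^ 3 := by
    intro z
    rw [hE]
    have h1 : |u * ψ d z| ≤ |u| * B := by
      rw [abs_mul]
      exact mul_le_mul_of_nonneg_left (hψ.bd d hd z) a0
    refine (exp_taylor _ (h1.trans hu)).trans ?_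
    refine (pow_le_pow_left₀ (abs_nonneg _) h1 3).trans (le_of_eq ?_)
    ring
  have h1 : (∑ z, cexp (((u * ψ d z : ℝ) : ℂ) * I)) = (q : ℂ) * ((1 - u ^ 2 / 2 : ℝ) : ℂ) + ∑ z, E z := by
    have e1 : ∀ z, cexp (((u * ψ d z : ℝ) : ℂ) * I) = (1 : ℂ) + ((u * I) * ((ψ d z : ℝ) : ℂ)) -
        ((u : ℂ) ^ 2 / 2) * ((ψ d z ^ 2 : ℝ) : ℂ) + E z := by
      intro z
      rw [hE]
      push_cast
      ring
    rw [sum_congr rfl (fun z _ => e1 z), sum_add_distrib, sum_sub_distrib, sum_add_distrib, ← mul_sum, ← mul_sum,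
      ← Complex.ofReal_sum, ← Complex.ofReal_sum, hψ.mean d hd, hψ.var d hd]
    simp only [sum_const, card_univ, ZMod.card, nsmul_eq_mul, mul_one]
    push_cast
    ring
  have h2 : ‖∑ z, E z‖ ≤ q * (B ^ 3 * |u| ^ 3) := by
    refine (norm_sum_le _ _).trans ((sum_le_sum (fun z _ => hEb z)).trans (le_of_eq ?_))
    simp [ZMod.card]
  have h3 : |(1 - u ^ 2 / 2) - Real.exp (-(u ^ 2 / 2))| ≤ |u| ^ 3 := by
    have hu2 : u ^ 2 ≤ 1 := by rw [← sq_abs]; exact pow_le_one₀ a0 hu1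
    have h := Real.abs_exp_sub_one_sub_id_le (x := -(u ^ 2 / 2)) (by
      rw [abs_neg, abs_of_nonneg (by positivity)]
      linarith)
    have e : (1 - u ^ 2 / 2) - Real.exp (-(u ^ 2 / 2)) = -(Real.exp (-(u ^ 2 / 2)) - 1 - -(u ^ 2 / 2)) := by ring
    rw [e, abs_neg]
    refine h.trans ?_
    have e2 : (-(u ^ 2 / 2)) ^ 2 = |u| ^ 3 * (|u| / 4) := by
      have : |u| ^ 4 = u ^ 4 := by
        rw [show |u| ^ 4 = (|u| ^ 2) ^ 2 by ring, sq_abs]
        ring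
      calc (-(u ^ 2 / 2)) ^ 2 = u ^ 4 / 4 := by ring
        _ = |u| ^ 4 / 4 := by rw [this]
        _ = _ := by ring
    rw [e2]
    exact mul_le_of_le_one_right (by positivity) (by linarith)
  have e3 : (∑ z, cexp (((u * ψ d z : ℝ) : ℂ) * I)) / (q : ℂ) - ((Real.exp (-(u ^ 2 / 2)) : ℝ) : ℂ) =
      (((1 - u ^ 2 / 2) - Real.exp (-(u ^ 2 / 2)) : ℝ) : ℂ) + (∑ z, E z) / ((q : ℝ) : ℂ) := by
    rw [h1]
    have : (q : ℂ) = ((q : ℝ) : ℂ) := by push_cast; rfl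
    rw [this, add_div, mul_div_cancel_left₀ _ hqc]
    push_cast
    ring
  rw [e3]
  refine (norm_add_le _ _).trans ?_
  rw [norm_div, Complex.norm_real, Complex.norm_real, Real.norm_of_nonneg hq0.le, Real.norm_eq_abs]
  have h4 : ‖∑ z, E z‖ / q ≤ B ^ 3 * |u| ^ 3 := by
    rw [div_le_iff₀ hq0]
    linarith
  have hB3 : 1 ≤ B ^ 3 := one_le_pow₀ hB
  have h5 : |u| ^ 3 ≤ B ^ 3 * |u| ^ 3 := le_mul_of_one_le_left (by positivity) hB3
  linarith

lemma mgfp (q H : ℕ) [NeZero q] (B : ℝ) (ψ : ℕ → ZMod q → ℝ) (hψ : Test q H B ψ)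
    (u : ℕ → ℝ) (hu : ∀ d ∈ Icc 1 H, |u d| * B ≤ 1) :
    (∑ g : (Icc 1 H : Finset ℕ) → ZMod q, Real.exp (TT H u ψ (ext (Icc 1 H) g))) /
      (Fintype.card ((Icc 1 H : Finset ℕ) → ZMod q) : ℝ) ≤ Real.exp (∑ d ∈ Icc 1 H, u d ^ 2) := by
  have hq0 : (0 : ℝ) < q := by exact_mod_cast (NeZero.pos q)
  have e1 : ∀ g : (Icc 1 H : Finset ℕ) → ZMod q, Real.exp (TT H u ψ (ext (Icc 1 H) g)) =
      ∏ d ∈ Icc 1 H, Real.exp (u d * ψ d (ext (Icc 1 H) g d)) := by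
    intro g
    unfold TT
    rw [Real.exp_sum]
  simp only [e1]
  rw [prod_avg q H (fun d z => Real.exp (u d * ψ d z)), Real.exp_sum]
  apply prod_le_prod
  · intro d _
    positivity
  · intro d hd
    rw [div_le_iff₀ hq0]
    have h1 : ∀ z, Real.exp (u d * ψ d z) ≤ 1 + u d * ψ d z + u d ^ 2 * ψ d z ^ 2 := by
      intro z
      have h2 : |u d * ψ d z| ≤ 1 := by
        rw [abs_mul]
        exact (mul_le_mul_of_nonneg_left (hψ.bd d hd z) (abs_nonneg _)).trans (hu d hd)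
      have h3 := (abs_le.1 (Real.abs_exp_sub_one_sub_id_le h2)).2
      have e : (u d * ψ d z) ^ 2 = u d ^ 2 * ψ d z ^ 2 := by ring
      rw [e] at h3
      linarith
    calc ∑ z, Real.exp (u d * ψ d z) ≤ ∑ z, (1 + u d * ψ d z + u d ^ 2 * ψ d z ^ 2) := sum_le_sum (fun z _ => h1 z)
      _ = (1 + u d ^ 2) * q := by
          rw [sum_add_distrib, sum_add_distrib, ← mul_sum, ← mul_sum, hψ.mean d hd, hψ.var d hd]
          simp [ZMod.card]
          ring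
      _ ≤ Real.exp (u d ^ 2) * q := by
          apply mul_le_mul_of_nonneg_right _ hq0.le
          have := Real.add_one_le_exp (u d ^ 2)
          linarith

/-- the characteristic function of the linear statistic of a random polynomial with `K` coefficients -/
lemma char_kp {K L q H : ℕ} [Fact q.Prime] (hH : H < q) (hL : Even L) (hLK : L ≤ K) (B : ℝ) (hB : 1 ≤ B) (ψ : ℕ → ZMod q → ℝ)
    (hψ : Test q H B ψ) (u : ℕ → ℝ) (U : ℝ) (hU : U * B ≤ 1 / 2) (hu : ∀ d ∈ Icc 1 H, |u d| ≤ U) :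
    ‖(∑ c : Fin K → ZMod q, cexp ((TT H u ψ (val c) : ℂ) * I)) / (Fintype.card (Fin K → ZMod q) : ℂ) -
      ((Real.exp (-((∑ d ∈ Icc 1 H, u d ^ 2) / 2)) : ℝ) : ℂ)‖ ≤
    2 * B ^ 3 * U ^ 3 * H + 4 * (1 / 2 : ℝ) ^ L * Real.exp (4 * ∑ d ∈ Icc 1 H, u d ^ 2) := by
  classical
  have hB0 : 0 < B := by linarith
  obtain ⟨R, hR⟩ : ∃ R : ℝ → ℂ, ∀ x, R x = cexp ((x : ℂ) * I) - ∑ j ∈ range L, ((x : ℂ) * I) ^ j / (j.factorial : ℂ) :=
    ⟨_, fun _ => rfl⟩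
  have hRb : ∀ x, ‖R x‖ ≤ x ^ L / (L.factorial : ℝ) := by
    intro x
    rw [hR]
    refine (exp_rem L x).trans (le_of_eq ?_)
    rw [hL.pow_abs]
  -- the two averages
  obtain ⟨M, hM⟩ : ∃ M : ℕ → ℝ, ∀ j, M j = (∑ g : (Icc 1 H : Finset ℕ) → ZMod q, TT H u ψ (ext (Icc 1 H) g) ^ j) /
      (Fintype.card ((Icc 1 H : Finset ℕ) → ZMod q) : ℝ) := ⟨_, fun _ => rfl⟩
  have expand : ∀ {Ω : Type} [Fintype Ω] (T : Ω → ℝ) (hm : ∀ j ≤ L, (∑ ω, T ω ^ j) / (Fintype.card Ω : ℝ) = M j),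
      ‖(∑ ω, cexp ((T ω : ℂ) * I)) / (Fintype.card Ω : ℂ) - ∑ j ∈ range L, (I ^ j / (j.factorial : ℂ)) * (M j : ℂ)‖ ≤
        M L / (L.factorial : ℝ) := by
    intro Ω _ T hm
    have e1 : (∑ ω, cexp ((T ω : ℂ) * I)) / (Fintype.card Ω : ℂ) - ∑ j ∈ range L, (I ^ j / (j.factorial : ℂ)) * (M j : ℂ) =
        (∑ ω, R (T ω)) / ((Fintype.card Ω : ℝ) : ℂ) := by
      have e2 : ∀ ω, R (T ω) = cexp ((T ω : ℂ) * I) - ∑ j ∈ range L, (I ^ j / (j.factorial : ℂ)) * ((T ω ^ j : ℝ) : ℂ) := by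
        intro ω
        rw [hR]
        congr 1
        apply sum_congr rfl
        intro j _
        push_cast
        rw [mul_pow]
        ring
      simp only [e2]
      rw [sum_sub_distrib, sum_comm, sub_div]
      push_cast
      congr 1
      rw [sum_div]
      apply sum_congr rfl
      intro j hj
      rw [mem_range] at hj
      rw [← hm j hj.le, ← mul_sum, mul_div_assoc]
      push_cast
      rfl
    rw [e1, norm_div, Complex.norm_real, Real.norm_of_nonneg (by positivity : (0 : ℝ) ≤ (Fintype.card Ω : ℝ)), ← hm L le_rfl,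
      div_right_comm]
    apply div_le_div_of_nonneg_right _ (by positivity)
    refine (norm_sum_le _ _).trans ?_
    rw [sum_div]
    exact sum_le_sum (fun ω _ => hRb _)
  have h1 := expand (fun c : Fin K → ZMod q => TT H u ψ (val c)) (fun j hj => by rw [mom_eq hH u ψ j (hj.trans hLK), hM])
  have h2 := expand (fun g : (Icc 1 H : Finset ℕ) → ZMod q => TT H u ψ (ext (Icc 1 H) g)) (fun j _ => by rw [hM])
  -- the moment
  have h3 : M L / (L.factorial : ℝ) ≤ 2 * (1 / 2 : ℝ) ^ L * Real.exp (4 * ∑ d ∈ Icc 1 H, u d ^ 2) := by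
    have hTs : ∀ (s : ℝ) (x : ℕ → ZMod q), TT H (fun d => s * u d) ψ x = s * TT H u ψ x := by
      intro s x
      unfold TT
      rw [mul_sum]
      apply sum_congr rfl
      intro d _
      ring
    have hub : ∀ s : ℝ, |s| = 2 → ∀ d ∈ Icc 1 H, |s * u d| * B ≤ 1 := by
      intro s hs d hd
      rw [abs_mul, hs]
      have := mul_le_mul_of_nonneg_right (hu d hd) hB0.le
      linarith
    have g1 := mgfp q H B ψ hψ (fun d => 2 * u d) (hub 2 (by norm_num))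
    have g2 := mgfp q H B ψ hψ (fun d => -2 * u d) (hub (-2) (by norm_num))
    have s3 : ∀ s : ℝ, s ^ 2 = 4 → ∑ d ∈ Icc 1 H, (s * u d) ^ 2 = 4 * ∑ d ∈ Icc 1 H, u d ^ 2 := by
      intro s hs
      rw [mul_sum]
      apply sum_congr rfl
      intro d _
      rw [mul_pow, hs]
    rw [s3 2 (by norm_num)] at g1
    rw [s3 (-2) (by norm_num)] at g2
    simp only [hTs] at g1 g2
    rw [hM, div_div, mul_comm (Fintype.card ((Icc 1 H : Finset ℕ) → ZMod q) : ℝ), ← div_div, sum_div]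
    calc (∑ g : (Icc 1 H : Finset ℕ) → ZMod q, TT H u ψ (ext (Icc 1 H) g) ^ L / (L.factorial : ℝ)) /
          (Fintype.card ((Icc 1 H : Finset ℕ) → ZMod q) : ℝ) ≤
        (∑ g : (Icc 1 H : Finset ℕ) → ZMod q, (1 / 2 : ℝ) ^ L * (Real.exp (2 * TT H u ψ (ext (Icc 1 H) g)) +
          Real.exp (-2 * TT H u ψ (ext (Icc 1 H) g)))) / (Fintype.card ((Icc 1 H : Finset ℕ) → ZMod q) : ℝ) := by
          apply div_le_div_of_nonneg_right _ (by positivity)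
          apply sum_le_sum
          intro g _
          have := pow_le_exp L hL (TT H u ψ (ext (Icc 1 H) g))
          rwa [← neg_mul] at this
      _ = (1 / 2 : ℝ) ^ L * ((∑ g : (Icc 1 H : Finset ℕ) → ZMod q, Real.exp (2 * TT H u ψ (ext (Icc 1 H) g))) /
          (Fintype.card ((Icc 1 H : Finset ℕ) → ZMod q) : ℝ) + (∑ g : (Icc 1 H : Finset ℕ) → ZMod q,
          Real.exp (-2 * TT H u ψ (ext (Icc 1 H) g))) / (Fintype.card ((Icc 1 H : Finset ℕ) → ZMod q) : ℝ)) := by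
          rw [← mul_sum, sum_add_distrib]
          ring
      _ ≤ (1 / 2 : ℝ) ^ L * (Real.exp (4 * ∑ d ∈ Icc 1 H, u d ^ 2) + Real.exp (4 * ∑ d ∈ Icc 1 H, u d ^ 2)) :=
          mul_le_mul_of_nonneg_left (add_le_add g1 g2) (by positivity)
      _ = _ := by ring
  -- the independent model
  have h4 : ‖(∑ g : (Icc 1 H : Finset ℕ) → ZMod q, cexp ((TT H u ψ (ext (Icc 1 H) g) : ℂ) * I)) /
      (Fintype.card ((Icc 1 H : Finset ℕ) → ZMod q) : ℂ) - ((Real.exp (-((∑ d ∈ Icc 1 H, u d ^ 2) / 2)) : ℝ) : ℂ)‖ ≤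
      2 * B ^ 3 * U ^ 3 * H := by
    have e1 : ∀ g : (Icc 1 H : Finset ℕ) → ZMod q, cexp ((TT H u ψ (ext (Icc 1 H) g) : ℂ) * I) =
        ∏ d ∈ Icc 1 H, cexp (((u d * ψ d (ext (Icc 1 H) g d) : ℝ) : ℂ) * I) := by
      intro g
      unfold TT
      rw [← Complex.exp_sum]
      congr 1
      push_cast
      rw [sum_mul]
    simp only [e1]
    rw [prod_avg q H (fun d z => cexp (((u d * ψ d z : ℝ) : ℂ) * I))]
    have e2 : ((Real.exp (-((∑ d ∈ Icc 1 H, u d ^ 2) / 2)) : ℝ) : ℂ) =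
        ∏ d ∈ Icc 1 H, ((Real.exp (-(u d ^ 2 / 2)) : ℝ) : ℂ) := by
      rw [← Complex.ofReal_prod, ← Real.exp_sum]
      congr 2
      rw [sum_div, sum_neg_distrib]
    rw [e2]
    have hq0 : (0 : ℝ) < q := by exact_mod_cast (NeZero.pos q)
    refine (prod_diffc _ _ _ (fun d _ => ?_) (fun d _ => ?_)).trans ?_
    · rw [norm_div, Complex.norm_natCast, div_le_one hq0]
      refine (norm_sum_le _ _).trans ?_
      simp only [Complex.norm_exp_ofReal_mul_I]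
      simp [ZMod.card]
    · rw [Complex.norm_real, Real.norm_of_nonneg (Real.exp_pos _).le, Real.exp_le_one_iff]
      have : 0 ≤ u d ^ 2 / 2 := by positivity
      linarith
    · calc ∑ d ∈ Icc 1 H, ‖(∑ z, cexp (((u d * ψ d z : ℝ) : ℂ) * I)) / (q : ℂ) - ((Real.exp (-(u d ^ 2 / 2)) : ℝ) : ℂ)‖ ≤
          ∑ d ∈ Icc 1 H, 2 * B ^ 3 * U ^ 3 := by
            apply sum_le_sum
            intro d hd
            have hud := hu d hd
            refine (factor q H B hB ψ hψ d hd (u d) ?_).trans ?_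
            · have := mul_le_mul_of_nonneg_right hud hB0.le
              linarith
            · exact mul_le_mul_of_nonneg_left (pow_le_pow_left₀ (abs_nonneg _) hud 3) (by positivity)
        _ = _ := by simp; ring
  have h5 := norm_sub_le_norm_sub_add_norm_sub
    ((∑ c : Fin K → ZMod q, cexp ((TT H u ψ (val c) : ℂ) * I)) / (Fintype.card (Fin K → ZMod q) : ℂ))
    (∑ j ∈ range L, (I ^ j / (j.factorial : ℂ)) * (M j : ℂ))
    ((∑ g : (Icc 1 H : Finset ℕ) → ZMod q, cexp ((TT H u ψ (ext (Icc 1 H) g) : ℂ) * I)) /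
      (Fintype.card ((Icc 1 H : Finset ℕ) → ZMod q) : ℂ))
  rw [norm_sub_rev (∑ j ∈ range L, (I ^ j / (j.factorial : ℂ)) * (M j : ℂ))] at h5
  have h6 := norm_sub_le_norm_sub_add_norm_sub
    ((∑ c : Fin K → ZMod q, cexp ((TT H u ψ (val c) : ℂ) * I)) / (Fintype.card (Fin K → ZMod q) : ℂ))
    ((∑ g : (Icc 1 H : Finset ℕ) → ZMod q, cexp ((TT H u ψ (ext (Icc 1 H) g) : ℂ) * I)) /
      (Fintype.card ((Icc 1 H : Finset ℕ) → ZMod q) : ℂ))
    ((Real.exp (-((∑ d ∈ Icc 1 H, u d ^ 2) / 2)) : ℝ) : ℂ)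
  linarith

end Pool.Agent.J4.H36.KP
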