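import Pool.Agent.J4.H36.MG.Law2

set_option autoImplicit false

/-! Random laws which are close to the gaussian law in probability, for arbitrary index types. -/

namespace Pool.Agent.J4.H36.KP
open Finset Filter Topology Complex MeasureTheory ProbabilityTheory WithLp
open Pool.Agent.J4.H66.MG (emp emp_prob emp_char emp_Iic Phi Phi_cont Phi_mono Phi_surj Phi_mem)
open Pool.Agent.J4.H36.MG (grid ch df df_emp ch_emp df_mono df_nonneg df_le_one toLp_meas)

/-- the joint law of two independent points, averaged over `D` -/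
noncomputable def jk {ι : Type} (Ω : Finset ι) (w : ι → ℝ) (A : Finset ℕ) (Z : ι → ℕ → ℝ) :
    Measure (WithLp 2 (ℝ × ℝ)) :=
  ∑ D ∈ Ω, ENNReal.ofReal (w D) • (((emp A (Z D)).prod (emp A (Z D))).map (toLp 2))

lemma jk_apply {ι : Type} (Ω : Finset ι) (w : ι → ℝ) (hw : ∀ D ∈ Ω, 0 ≤ w D) (A : Finset ℕ) (hA : A.Nonempty)
    (Z : ι → ℕ → ℝ) (S T : Set ℝ) (hS : MeasurableSet S) (hT : MeasurableSet T) :
    (jk Ω w A Z).real (ofLp ⁻¹' (S ×ˢ T)) = ∑ D ∈ Ω, w D * ((emp A (Z D)).real S * (emp A (Z D)).real T) := by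
  have hp : ∀ D, IsProbabilityMeasure (emp A (Z D)) := fun D => emp_prob A hA (Z D)
  have hm : MeasurableSet (ofLp ⁻¹' (S ×ˢ T) : Set (WithLp 2 (ℝ × ℝ))) :=
    (MeasurableEquiv.toLp 2 (ℝ × ℝ)).symm.measurable (hS.prod hT)
  unfold jk Measure.real
  rw [Measure.coe_finsetSum, Finset.sum_apply]
  rw [ENNReal.toReal_sum]
  · apply sum_congr rfl
    intro D hD
    rw [Measure.smul_apply, smul_eq_mul, Measure.map_apply toLp_meas hm, ENNReal.toReal_mul,
      ENNReal.toReal_ofReal (hw D hD)]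
    have : (toLp 2 : ℝ × ℝ → WithLp 2 (ℝ × ℝ)) ⁻¹' (ofLp ⁻¹' (S ×ˢ T)) = S ×ˢ T := rfl
    rw [this, Measure.prod_prod, ENNReal.toReal_mul]
  · intro D _
    rw [Measure.smul_apply, smul_eq_mul]
    apply ENNReal.mul_ne_top ENNReal.ofReal_ne_top
    have : IsProbabilityMeasure (((emp A (Z D)).prod (emp A (Z D))).map (toLp 2)) :=
      Measure.isProbabilityMeasure_map toLp_meas.aemeasurable
    exact measure_ne_top _ _

lemma jk_prob {ι : Type} (Ω : Finset ι) (w : ι → ℝ) (hw : ∀ D ∈ Ω, 0 ≤ w D) (hw1 : ∑ D ∈ Ω, w D = 1)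
    (A : Finset ℕ) (hA : A.Nonempty) (Z : ι → ℕ → ℝ) : IsProbabilityMeasure (jk Ω w A Z) := by
  have hp : ∀ D, IsProbabilityMeasure (emp A (Z D)) := fun D => emp_prob A hA (Z D)
  constructor
  unfold jk
  rw [Measure.coe_finsetSum, Finset.sum_apply]
  have : ∀ D ∈ Ω, (ENNReal.ofReal (w D) • (((emp A (Z D)).prod (emp A (Z D))).map (toLp 2))) Set.univ =
      ENNReal.ofReal (w D) := by
    intro D _
    have : IsProbabilityMeasure (((emp A (Z D)).prod (emp A (Z D))).map (toLp 2)) :=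
      Measure.isProbabilityMeasure_map toLp_meas.aemeasurable
    rw [Measure.smul_apply, measure_univ, smul_eq_mul, mul_one]
  rw [sum_congr rfl this, ← ENNReal.ofReal_sum_of_nonneg hw, hw1, ENNReal.ofReal_one]

lemma jk_char {ι : Type} (Ω : Finset ι) (w : ι → ℝ) (hw : ∀ D ∈ Ω, 0 ≤ w D) (A : Finset ℕ) (hA : A.Nonempty)
    (Z : ι → ℕ → ℝ) (x : WithLp 2 (ℝ × ℝ)) :
    charFun (jk Ω w A Z) x = ∑ D ∈ Ω, (w D : ℂ) * (ch A (Z D) (ofLp x).1 * ch A (Z D) (ofLp x).2) := by
  have hp : ∀ D, IsProbabilityMeasure (emp A (Z D)) := fun D => emp_prob A hA (Z D)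
  rw [charFun_apply]
  unfold jk
  rw [integral_finsetSum_measure]
  · apply sum_congr rfl
    intro D hD
    rw [integral_smul_measure, ENNReal.toReal_ofReal (hw D hD), Complex.real_smul]
    congr 1
    rw [← charFun_apply, charFun_prod, ch_emp, ch_emp]
  · intro D _
    have : IsProbabilityMeasure (((emp A (Z D)).prod (emp A (Z D))).map (toLp 2)) :=
      Measure.isProbabilityMeasure_map toLp_meas.aemeasurable
    apply Integrable.smul_measure _ ENNReal.ofReal_ne_top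
    refine (integrable_const (1 : ℝ)).mono' ?_ ?_
    · apply Continuous.aestronglyMeasurable
      fun_prop
    · filter_upwards with y
      rw [Complex.norm_exp_ofReal_mul_I]

/-- If the product of the characteristic functions at two points, averaged over `D`, converges to the product of the
gaussian ones, then the laws are close to the gaussian law for most `D`. -/
lemma law3 {ι : ℕ → Type} (Ω : ∀ m, Finset (ι m)) (w : ∀ m, ι m → ℝ) (hw : ∀ m, ∀ D ∈ Ω m, 0 ≤ w m D)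
    (hw1 : ∀ m, ∑ D ∈ Ω m, w m D = 1) (A : ℕ → Finset ℕ) (hA : ∀ m, (A m).Nonempty) (Z : ∀ m, ι m → ℕ → ℝ)
    (h : ∀ s t : ℝ, Tendsto (fun m => ∑ D ∈ Ω m, (w m D : ℂ) * (ch (A m) (Z m D) s * ch (A m) (Z m D) t)) atTop
      (𝓝 ((Real.exp (-((s ^ 2 + t ^ 2) / 2)) : ℝ) : ℂ))) (ε : ℝ) (hε : 0 < ε) :
    ∃ M : ℕ, ∀ m ≥ M, ∑ D ∈ Ω m, (open Classical in if ∀ t, |df (A m) (Z m D) t - Phi t| ≤ ε then 0 else w m D) ≤ ε := by
  classical
  obtain ⟨P, hP⟩ : ∃ P : ℕ → ProbabilityMeasure (WithLp 2 (ℝ × ℝ)), ∀ m, (P m : Measure (WithLp 2 (ℝ × ℝ))) =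
      jk (Ω m) (w m) (A m) (Z m) :=
    ⟨fun m => ⟨_, jk_prob (Ω m) (w m) (hw m) (hw1 m) (A m) (hA m) (Z m)⟩, fun m => rfl⟩
  have hGp : IsProbabilityMeasure (((gaussianReal 0 1).prod (gaussianReal 0 1)).map
      (toLp 2 : ℝ × ℝ → WithLp 2 (ℝ × ℝ))) := Measure.isProbabilityMeasure_map toLp_meas.aemeasurable
  obtain ⟨G, hG⟩ : ∃ G : ProbabilityMeasure (WithLp 2 (ℝ × ℝ)), (G : Measure (WithLp 2 (ℝ × ℝ))) =
      ((gaussianReal 0 1).prod (gaussianReal 0 1)).map (toLp 2) := ⟨⟨_, hGp⟩, rfl⟩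
  have hlim : Tendsto P atTop (𝓝 G) := by
    refine ProbabilityMeasure.tendsto_of_tendsto_charFun fun x => ?_
    have e1 : charFun (G : Measure (WithLp 2 (ℝ × ℝ))) x =
        ((Real.exp (-(((ofLp x).1 ^ 2 + (ofLp x).2 ^ 2) / 2)) : ℝ) : ℂ) := by
      rw [hG, charFun_prod, charFun_gaussianReal, charFun_gaussianReal, ← Complex.exp_add]
      push_cast
      congr 1
      ring
    rw [e1]
    simp only [hP]
    have e2 : ∀ m, charFun (jk (Ω m) (w m) (A m) (Z m)) x = ∑ D ∈ Ω m, (w m D : ℂ) *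
        (ch (A m) (Z m D) (ofLp x).1 * ch (A m) (Z m D) (ofLp x).2) :=
      fun m => jk_char (Ω m) (w m) (hw m) (A m) (hA m) (Z m) x
    simp only [e2]
    exact h _ _
  have hns : ∀ a : ℝ, gaussianReal 0 1 (frontier (Set.Iic a)) = 0 := by
    intro a
    have := nullSingletonClass_gaussianReal (μ := 0) (v := 1) one_ne_zero
    rw [frontier_Iic]
    simp
  have hset : ∀ S T : Set ℝ, MeasurableSet S → MeasurableSet T → gaussianReal 0 1 (frontier S) = 0 →
      gaussianReal 0 1 (frontier T) = 0 →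
      Tendsto (fun m => ∑ D ∈ Ω m, w m D * ((emp (A m) (Z m D)).real S * (emp (A m) (Z m D)).real T)) atTop
      (𝓝 ((gaussianReal 0 1).real S * (gaussianReal 0 1).real T)) := by
    intro S T hS hT hfS hfT
    have hm : MeasurableSet (ofLp ⁻¹' (S ×ˢ T) : Set (WithLp 2 (ℝ × ℝ))) :=
      (MeasurableEquiv.toLp 2 (ℝ × ℝ)).symm.measurable (hS.prod hT)
    have hfr : (G : Measure (WithLp 2 (ℝ × ℝ))) (frontier (ofLp ⁻¹' (S ×ˢ T))) = 0 := by
      have e1 : frontier (ofLp ⁻¹' (S ×ˢ T) : Set (WithLp 2 (ℝ × ℝ))) = ofLp ⁻¹' (frontier (S ×ˢ T)) :=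
        ((WithLp.homeomorphProd 2 ℝ ℝ).preimage_frontier (S ×ˢ T)).symm
      rw [e1, frontier_prod_eq, hG, Measure.map_apply toLp_meas]
      · have e2 : (toLp 2 : ℝ × ℝ → WithLp 2 (ℝ × ℝ)) ⁻¹' (ofLp ⁻¹' (closure S ×ˢ frontier T ∪ frontier S ×ˢ closure T)) =
          closure S ×ˢ frontier T ∪ frontier S ×ˢ closure T := rfl
        rw [e2]
        apply measure_union_null
        · rw [Measure.prod_prod, hfT, mul_zero]
        · rw [Measure.prod_prod, hfS, zero_mul]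
      · apply (MeasurableEquiv.toLp 2 (ℝ × ℝ)).symm.measurable
        apply MeasurableSet.union
        · exact isClosed_closure.measurableSet.prod isClosed_frontier.measurableSet
        · exact isClosed_frontier.measurableSet.prod isClosed_closure.measurableSet
    have h1 := ProbabilityMeasure.tendsto_measure_of_null_frontier_of_tendsto' hlim (E := ofLp ⁻¹' (S ×ˢ T)) hfr
    have h2 := (ENNReal.tendsto_toReal (measure_ne_top (G : Measure (WithLp 2 (ℝ × ℝ))) (ofLp ⁻¹' (S ×ˢ T)))).comp h1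
    have e3 : ((G : Measure (WithLp 2 (ℝ × ℝ))) (ofLp ⁻¹' (S ×ˢ T))).toReal =
        (gaussianReal 0 1).real S * (gaussianReal 0 1).real T := by
      rw [hG, Measure.map_apply toLp_meas hm]
      have : (toLp 2 : ℝ × ℝ → WithLp 2 (ℝ × ℝ)) ⁻¹' (ofLp ⁻¹' (S ×ˢ T)) = S ×ˢ T := rfl
      rw [this, Measure.prod_prod, ENNReal.toReal_mul]
      rfl
    rw [e3] at h2
    refine h2.congr (fun m => ?_)
    have := jk_apply (Ω m) (w m) (hw m) (A m) (hA m) (Z m) S T hS hT
    rw [← this]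
    simp only [Function.comp, hP]
    rfl
  -- the variance
  have hvar : ∀ a : ℝ, Tendsto (fun m => ∑ D ∈ Ω m, w m D * (df (A m) (Z m D) a - Phi a) ^ 2) atTop (𝓝 0) := by
    intro a
    have g1 := hset (Set.Iic a) (Set.Iic a) measurableSet_Iic measurableSet_Iic (hns a) (hns a)
    have g2 := hset (Set.Iic a) Set.univ measurableSet_Iic MeasurableSet.univ (hns a) (by simp)
    have hpm : ∀ m D, (emp (A m) (Z m D)).real Set.univ = 1 := by
      intro m D
      have := emp_prob (A m) (hA m) (Z m D)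
      simp
    simp only [hpm, mul_one] at g2
    have hg1 : (gaussianReal 0 1).real Set.univ = 1 := by simp
    rw [hg1, mul_one] at g2
    have g3 := (g1.sub (g2.const_mul (2 * Phi a))).add_const (Phi a ^ 2)
    have e0 : (gaussianReal 0 1).real (Set.Iic a) * (gaussianReal 0 1).real (Set.Iic a) -
        2 * Phi a * (gaussianReal 0 1).real (Set.Iic a) + Phi a ^ 2 = 0 := by
      change Phi a * Phi a - 2 * Phi a * Phi a + Phi a ^ 2 = 0
      ring
    rw [e0] at g3
    refine g3.congr (fun m => ?_)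
    have e1 : Phi a ^ 2 = ∑ D ∈ Ω m, w m D * Phi a ^ 2 := by rw [← sum_mul, hw1 m, one_mul]
    rw [e1, mul_sum, ← sum_sub_distrib, ← sum_add_distrib]
    apply sum_congr rfl
    intro D _
    rw [df_emp]
    ring
  obtain ⟨S, κ, hκ, hS⟩ := grid ε hε
  have hsum : Tendsto (fun m => ∑ a ∈ S, (1 / κ ^ 2) * ∑ D ∈ Ω m, w m D * (df (A m) (Z m D) a - Phi a) ^ 2) atTop
      (𝓝 0) := by
    have := tendsto_finsetSum S (fun a _ => (hvar a).const_mul (1 / κ ^ 2))
    simpa using this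
  obtain ⟨M, hM⟩ := (Metric.tendsto_atTop.1 hsum) ε hε
  refine ⟨M, fun m hm => ?_⟩
  have h1 := hM m hm
  rw [Real.dist_eq, sub_zero] at h1
  refine le_trans ?_ ((le_abs_self _).trans h1.le)
  have e1 : ∑ a ∈ S, (1 / κ ^ 2) * ∑ D ∈ Ω m, w m D * (df (A m) (Z m D) a - Phi a) ^ 2 =
      ∑ D ∈ Ω m, w m D * ∑ a ∈ S, (df (A m) (Z m D) a - Phi a) ^ 2 / κ ^ 2 := by
    simp only [mul_sum]
    rw [sum_comm]
    apply sum_congr rfl
    intro D _
    apply sum_congr rfl
    intro a _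
    ring
  rw [e1]
  apply sum_le_sum
  intro D hD
  split_ifs with hc
  · exact mul_nonneg (hw m D hD) (sum_nonneg (fun a _ => by positivity))
  · apply le_mul_of_one_le_right (hw m D hD)
    have hex : ∃ a ∈ S, κ < |df (A m) (Z m D) a - Phi a| := by
      by_contra hcon
      push Not at hcon
      exact hc (hS _ (df_mono _ _) (df_nonneg _ _) (df_le_one _ _) hcon)
    obtain ⟨a, haS, ha⟩ := hex
    calc (1 : ℝ) ≤ (df (A m) (Z m D) a - Phi a) ^ 2 / κ ^ 2 := by
          rw [one_le_div (by positivity), ← sq_abs (df (A m) (Z m D) a - Phi a)]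
          exact pow_le_pow_left₀ hκ.le ha.le 2
      _ ≤ _ := single_le_sum (f := fun a => (df (A m) (Z m D) a - Phi a) ^ 2 / κ ^ 2)
          (fun a _ => by positivity) haS

end Pool.Agent.J4.H36.KP
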