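import Pool.Agent.J4.H36.MG.Pairs
import Pool.Agent.J4.H36.KP.Law3
import Pool.Agent.J4.H36.KP.Char

set_option autoImplicit false

/-! The Gaussian law for sums twisted by functions of the values of almost all polynomials modulo `q`. -/

namespace Pool.Agent.J4.H36.KP
open Finset Filter Topology Complex
open Pool.Agent.J4.H66.MG (mu mu_abs cc cc_pos cc_half cc_one sg Phi YY exp_diff)
open Pool.Agent.J4.H36.MG (Good good ch df)

/-- the normalisation -/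
noncomputable def dn (H : ℕ) (f : ℕ → ℝ) : ℝ := Real.sqrt (cc * (H * sg H f))

/-- the normalised twisted sum -/
noncomputable def ZP {K q : ℕ} (H : ℕ) (f : ℕ → ℝ) (ψ : ℕ → ZMod q → ℝ) (c : Fin K → ZMod q) (n : ℕ) : ℝ :=
  (∑ d ∈ Icc 1 H, f d * ψ d (val c d) * mu (n + d)) / dn H f

/-- the average over all polynomials -/
noncomputable def EP {K q : ℕ} [NeZero q] (F : (Fin K → ZMod q) → ℂ) : ℂ :=
  (∑ c : Fin K → ZMod q, F c) / (Fintype.card (Fin K → ZMod q) : ℂ)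

lemma EP_norm {K q : ℕ} [NeZero q] (F : (Fin K → ZMod q) → ℂ) (hF : ∀ c, ‖F c‖ ≤ 1) : ‖EP F‖ ≤ 1 := by
  unfold EP
  have h0 : (0 : ℝ) < Fintype.card (Fin K → ZMod q) := by exact_mod_cast Fintype.card_pos
  rw [norm_div, Complex.norm_natCast, div_le_one h0]
  refine (norm_sum_le _ _).trans ((sum_le_sum (fun c _ => hF c)).trans ?_)
  simp

/-- the pointwise estimate for a good pair -/
lemma pair_kp {K L q H : ℕ} [Fact q.Prime] (hHq : H < q) (hH : 1 ≤ H) (hL : Even L) (hLK : L ≤ K) (B : ℝ) (hB : 1 ≤ B)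
    (ψ : ℕ → ZMod q → ℝ) (hψ : Test q H B ψ) (f : ℕ → ℝ) (hf : ∀ d, |f d| ≤ 1)
    (ε : ℝ) (hε : 0 < ε) (hsg : ε ≤ sg H f) (T : ℝ) (hT : 1 ≤ T) (hR : 4 * T * B ≤ dn H f) (δ : ℝ) (hδ : 0 ≤ δ)
    (P : ℕ × ℕ) (hP : Good δ H f P) (s t : ℝ) (hs : |s| ≤ T) (ht : |t| ≤ T) :
    ‖EP (fun c : Fin K → ZMod q => cexp (((s * ZP H f ψ c P.1 + t * ZP H f ψ c P.2 : ℝ) : ℂ) * I)) -
      ((Real.exp (-((s ^ 2 + t ^ 2) / 2)) : ℝ) : ℂ)‖ ≤
      32 * B ^ 3 * T ^ 3 / (ε * dn H f) + 4 * (1 / 2 : ℝ) ^ L * Real.exp (32 * T ^ 2 / ε) + 4 * T ^ 2 * δ / ε := by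
  have hH0 : (0 : ℝ) < H := by exact_mod_cast hH
  have hsg0 : 0 < sg H f := lt_of_lt_of_le hε hsg
  have hcc := cc_pos
  have hB0 : 0 < B := by linarith
  have hT0 : 0 < T := by linarith
  obtain ⟨r, hr⟩ : ∃ r : ℝ, r = dn H f := ⟨_, rfl⟩
  rw [← hr] at hR ⊢
  have hr0 : 0 < r := lt_of_lt_of_le (by positivity) hR
  have hr2 : r ^ 2 = cc * (H * sg H f) := by
    rw [hr, dn, Real.sq_sqrt (by positivity)]
  obtain ⟨u, hu⟩ : ∃ u : ℕ → ℝ, ∀ d, u d = f d * (s * mu (P.1 + d) + t * mu (P.2 + d)) / r := ⟨_, fun _ => rfl⟩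
  have hlin : ∀ c : Fin K → ZMod q, s * ZP H f ψ c P.1 + t * ZP H f ψ c P.2 = TT H u ψ (val c) := by
    intro c
    unfold ZP TT
    rw [← hr, mul_div_assoc', mul_div_assoc', ← add_div, mul_sum, mul_sum, ← sum_add_distrib, sum_div]
    apply sum_congr rfl
    intro d _
    rw [hu]
    ring
  have hub : ∀ d, |u d| ≤ 2 * T / r := by
    intro d
    rw [hu, abs_div, abs_of_pos hr0]
    apply div_le_div_of_nonneg_right _ hr0.le
    rw [abs_mul]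
    have a1 : |s * mu (P.1 + d) + t * mu (P.2 + d)| ≤ 2 * T := by
      refine (abs_add_le _ _).trans ?_
      rw [abs_mul, abs_mul]
      have b1 : |s| * |mu (P.1 + d)| ≤ T := (mul_le_of_le_one_right (abs_nonneg _) (mu_abs _)).trans hs
      have b2 : |t| * |mu (P.2 + d)| ≤ T := (mul_le_of_le_one_right (abs_nonneg _) (mu_abs _)).trans ht
      linarith
    exact (mul_le_of_le_one_left (abs_nonneg _) (hf d)).trans a1
  have h1 := char_kp (K := K) hHq hL hLK B hB ψ hψ u (2 * T / r) (by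
    rw [div_mul_eq_mul_div, div_le_div_iff₀ hr0 (by norm_num)]
    linarith) (fun d _ => hub d)
  have e2 : EP (fun c : Fin K → ZMod q => cexp (((s * ZP H f ψ c P.1 + t * ZP H f ψ c P.2 : ℝ) : ℂ) * I)) =
      (∑ c : Fin K → ZMod q, cexp ((TT H u ψ (val c) : ℂ) * I)) / (Fintype.card (Fin K → ZMod q) : ℂ) := by
    unfold EP
    simp only [hlin]
  rw [e2]
  -- the quadratic form
  obtain ⟨E1, hE1⟩ : ∃ E1 : ℝ, E1 = ∑ d ∈ Icc 1 H, YY H f P.1 d := ⟨_, rfl⟩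
  obtain ⟨E2, hE2⟩ : ∃ E2 : ℝ, E2 = ∑ d ∈ Icc 1 H, YY H f P.2 d := ⟨_, rfl⟩
  obtain ⟨E3, hE3⟩ : ∃ E3 : ℝ, E3 = ∑ d ∈ Icc 1 H, f d ^ 2 * (mu (P.1 + d) * mu (P.2 + d)) := ⟨_, rfl⟩
  obtain ⟨g1, g2, g3⟩ := hP
  rw [← hE1] at g1
  rw [← hE2] at g2
  rw [← hE3] at g3
  have hY : ∀ n : ℕ, ∑ d ∈ Icc 1 H, f d ^ 2 * mu (n + d) ^ 2 = ∑ d ∈ Icc 1 H, YY H f n d + cc * (H * sg H f) := by
    intro n
    unfold YY
    rw [sum_sub_distrib, sum_const, Nat.card_Icc, add_tsub_cancel_right, nsmul_eq_mul]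
    have : ∑ d ∈ Icc 1 H, mu (n + d) ^ 2 * f d ^ 2 = ∑ d ∈ Icc 1 H, f d ^ 2 * mu (n + d) ^ 2 :=
      sum_congr rfl (fun _ _ => mul_comm _ _)
    rw [this]
    ring
  have hq2 : ∑ d ∈ Icc 1 H, u d ^ 2 =
      (s ^ 2 * (E1 + cc * (H * sg H f)) + t ^ 2 * (E2 + cc * (H * sg H f)) + 2 * (s * t) * E3) / r ^ 2 := by
    rw [hE1, hE2, ← hY, ← hY, hE3, mul_sum, mul_sum, mul_sum, ← sum_add_distrib, ← sum_add_distrib, sum_div]
    apply sum_congr rfl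
    intro d _
    rw [hu]
    ring
  have hexp : (∑ d ∈ Icc 1 H, u d ^ 2) / 2 =
      (s ^ 2 + t ^ 2) / 2 + (s ^ 2 * E1 + t ^ 2 * E2 + 2 * (s * t) * E3) / (2 * (cc * (H * sg H f))) := by
    rw [hq2, hr2]
    field_simp
    ring
  have hs2 : s ^ 2 ≤ T ^ 2 := by rw [← sq_abs]; exact pow_le_pow_left₀ (abs_nonneg _) hs 2
  have ht2 : t ^ 2 ≤ T ^ 2 := by rw [← sq_abs]; exact pow_le_pow_left₀ (abs_nonneg _) ht 2
  have hst : |s * t| ≤ T ^ 2 := by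
    rw [abs_mul, sq]
    exact mul_le_mul hs ht (abs_nonneg _) (by linarith)
  have hnum : |s ^ 2 * E1 + t ^ 2 * E2 + 2 * (s * t) * E3| ≤ 4 * T ^ 2 * (δ * H) := by
    have hδH : 0 ≤ δ * H := by positivity
    have c1 : |s ^ 2 * E1| ≤ T ^ 2 * (δ * H) := by
      rw [abs_mul, abs_of_nonneg (sq_nonneg s)]
      exact mul_le_mul hs2 g1 (abs_nonneg _) (by positivity)
    have c2 : |t ^ 2 * E2| ≤ T ^ 2 * (δ * H) := by
      rw [abs_mul, abs_of_nonneg (sq_nonneg t)]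
      exact mul_le_mul ht2 g2 (abs_nonneg _) (by positivity)
    have c3 : |2 * (s * t) * E3| ≤ 2 * T ^ 2 * (δ * H) := by
      rw [abs_mul, abs_mul, abs_of_nonneg (by norm_num : (0 : ℝ) ≤ 2)]
      exact mul_le_mul (by linarith) g3 (abs_nonneg _) (by positivity)
    refine (abs_add_le _ _).trans ?_
    have := abs_add_le (s ^ 2 * E1) (t ^ 2 * E2)
    linarith
  have hcH : ε * H / 2 ≤ cc * (H * sg H f) := by
    have h2 : 1 / 2 * (H * ε) ≤ cc * (H * sg H f) :=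
      mul_le_mul cc_half (mul_le_mul_of_nonneg_left hsg hH0.le) (by positivity) hcc.le
    linarith
  have hdiff : |(∑ d ∈ Icc 1 H, u d ^ 2) / 2 - (s ^ 2 + t ^ 2) / 2| ≤ 4 * T ^ 2 * δ / ε := by
    rw [hexp, add_sub_cancel_left, abs_div, abs_of_pos (by positivity : 0 < 2 * (cc * (H * sg H f))), div_le_div_iff₀
      (by positivity) hε]
    calc |s ^ 2 * E1 + t ^ 2 * E2 + 2 * (s * t) * E3| * ε ≤ 4 * T ^ 2 * (δ * H) * ε :=
          mul_le_mul_of_nonneg_right hnum hε.le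
      _ = 4 * T ^ 2 * δ * (2 * (ε * H / 2)) := by ring
      _ ≤ 4 * T ^ 2 * δ * (2 * (cc * (H * sg H f))) := by
          apply mul_le_mul_of_nonneg_left _ (by positivity)
          linarith
  have h3 : ‖((Real.exp (-((∑ d ∈ Icc 1 H, u d ^ 2) / 2)) : ℝ) : ℂ) -
      ((Real.exp (-((s ^ 2 + t ^ 2) / 2)) : ℝ) : ℂ)‖ ≤ 4 * T ^ 2 * δ / ε := by
    rw [← Complex.ofReal_sub, Complex.norm_real]
    exact (exp_diff _ _ (by positivity) (by positivity)).trans hdiff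
  have hHr : H * ε ≤ 2 * r ^ 2 := by
    rw [hr2]
    linarith
  have h4 : 2 * B ^ 3 * (2 * T / r) ^ 3 * H ≤ 32 * B ^ 3 * T ^ 3 / (ε * r) := by
    have e3 : 2 * B ^ 3 * (2 * T / r) ^ 3 * H = 16 * B ^ 3 * T ^ 3 * H / r ^ 3 := by
      rw [div_pow]
      ring
    rw [e3, div_le_div_iff₀ (by positivity) (by positivity)]
    calc 16 * B ^ 3 * T ^ 3 * H * (ε * r) = 16 * B ^ 3 * T ^ 3 * r * (H * ε) := by ring
      _ ≤ 16 * B ^ 3 * T ^ 3 * r * (2 * r ^ 2) := mul_le_mul_of_nonneg_left hHr (by positivity)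
      _ = _ := by ring
  have h5 : 4 * ∑ d ∈ Icc 1 H, u d ^ 2 ≤ 32 * T ^ 2 / ε := by
    have hu2 : ∑ d ∈ Icc 1 H, u d ^ 2 ≤ H * (2 * T / r) ^ 2 := by
      calc ∑ d ∈ Icc 1 H, u d ^ 2 ≤ ∑ d ∈ Icc 1 H, (2 * T / r) ^ 2 := by
            apply sum_le_sum
            intro d _
            rw [← sq_abs]
            exact pow_le_pow_left₀ (abs_nonneg _) (hub d) 2
        _ = _ := by simp
    have h6 : (H : ℝ) * (2 * T / r) ^ 2 ≤ 8 * T ^ 2 / ε := by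
      rw [div_pow, mul_div_assoc', div_le_div_iff₀ (by positivity) hε]
      calc (H : ℝ) * (2 * T) ^ 2 * ε = 4 * T ^ 2 * (H * ε) := by ring
        _ ≤ 4 * T ^ 2 * (2 * r ^ 2) := mul_le_mul_of_nonneg_left hHr (by positivity)
        _ = _ := by ring
    have : 4 * (8 * T ^ 2 / ε) = 32 * T ^ 2 / ε := by ring
    linarith
  have h7 := mul_le_mul_of_nonneg_left (Real.exp_le_exp.2 h5) (by positivity : (0 : ℝ) ≤ 4 * (1 / 2 : ℝ) ^ L)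
  have h8 := norm_sub_le_norm_sub_add_norm_sub
    ((∑ c : Fin K → ZMod q, cexp ((TT H u ψ (val c) : ℂ) * I)) / (Fintype.card (Fin K → ZMod q) : ℂ))
    ((Real.exp (-((∑ d ∈ Icc 1 H, u d ^ 2) / 2)) : ℝ) : ℂ) ((Real.exp (-((s ^ 2 + t ^ 2) / 2)) : ℝ) : ℂ)
  linarith

/-- for almost all pairs of windows the two sums are jointly gaussian over the random polynomial -/
lemma main_kp (ε V B : ℝ) (hε : 0 < ε) (hV0 : 0 ≤ V) (hB : 1 ≤ B) (T γ : ℝ) (hT : 1 ≤ T) (hγ : 0 < γ) :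
    ∃ K₀ : ℕ, 1 ≤ K₀ ∧ ∀ K ≥ K₀, ∀ H ≥ K₀, ∀ (q : ℕ) [Fact q.Prime], H < q → ∀ ψ : ℕ → ZMod q → ℝ, Test q H B ψ →
    ∀ X ≥ H, ∀ f : ℕ → ℝ, (∀ d, |f d| ≤ 1) →
    ∑ d ∈ Ico 1 H, |f (d + 1) - f d| ≤ V → ε ≤ sg H f → ∀ s t : ℝ, |s| ≤ T → |t| ≤ T →
    (#{P ∈ Icc X (2 * X) ×ˢ Icc X (2 * X) |
      ¬ ‖EP (fun c : Fin K → ZMod q => cexp (((s * ZP H f ψ c P.1 + t * ZP H f ψ c P.2 : ℝ) : ℂ) * I)) -
      ((Real.exp (-((s ^ 2 + t ^ 2) / 2)) : ℝ) : ℂ)‖ ≤ γ} : ℝ) ≤ γ * (X : ℝ) ^ 2 := by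
  classical
  have hT0 : 0 < T := by linarith
  have hB0 : 0 < B := by linarith
  obtain ⟨δ, hδ⟩ : ∃ δ : ℝ, δ = min γ (γ * ε / (12 * T ^ 2)) := ⟨_, rfl⟩
  have hδ0 : 0 < δ := by rw [hδ]; positivity
  have hδ1 : δ ≤ γ := by rw [hδ]; exact min_le_left _ _
  have hδ2 : 4 * T ^ 2 * δ / ε ≤ γ / 3 := by
    have : δ ≤ γ * ε / (12 * T ^ 2) := by rw [hδ]; exact min_le_right _ _
    rw [le_div_iff₀ (by positivity)] at this
    rw [div_le_div_iff₀ hε (by norm_num)]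
    linarith
  obtain ⟨H₀, hH₀, h1⟩ := good δ V hδ0 hV0
  obtain ⟨E, hE⟩ : ∃ E : ℝ, E = Real.exp (32 * T ^ 2 / ε) := ⟨_, rfl⟩
  have hE0 : 0 < E := by rw [hE]; exact Real.exp_pos _
  obtain ⟨n, hn⟩ := exists_pow_lt_of_lt_one (by positivity : 0 < γ / (12 * E)) (by norm_num : (1 / 2 : ℝ) < 1)
  obtain ⟨R, hR⟩ : ∃ R : ℝ, R = max (4 * T * B) (96 * B ^ 3 * T ^ 3 / (ε * γ)) := ⟨_, rfl⟩
  have hR1 : 4 * T * B ≤ R := by rw [hR]; exact le_max_left _ _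
  have hR2 : 96 * B ^ 3 * T ^ 3 / (ε * γ) ≤ R := by rw [hR]; exact le_max_right _ _
  have hR0 : 0 < R := lt_of_lt_of_le (by positivity) hR1
  obtain ⟨N, hN⟩ := exists_nat_gt (2 * R ^ 2 / ε)
  refine ⟨2 * n + H₀ + N + 1, by omega, fun K hK H hH q hq hHq ψ hψ X hX f hf hV hsg s t hs ht => ?_⟩
  have hH1 : 1 ≤ H := by omega
  have hHp : (0 : ℝ) < H := by exact_mod_cast hH1
  have hcc := cc_pos
  have hden : R ≤ dn H f := by
    unfold dn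
    apply Real.le_sqrt_of_sq_le
    have h3 : 2 * R ^ 2 / ε ≤ H := hN.le.trans (by exact_mod_cast (by omega : N ≤ H))
    rw [div_le_iff₀ hε] at h3
    have h2 : 1 / 2 * (H * ε) ≤ cc * (H * sg H f) :=
      mul_le_mul cc_half (mul_le_mul_of_nonneg_left hsg hHp.le) (by positivity) hcc.le
    linarith
  have hden0 : 0 < dn H f := lt_of_lt_of_le hR0 hden
  refine le_trans ?_ ((h1 H (by omega) X hX f hf hV).trans (mul_le_mul_of_nonneg_right hδ1 (by positivity)))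
  apply Nat.cast_le.2
  apply card_le_card
  intro P hP
  rw [mem_filter] at hP ⊢
  refine ⟨hP.1, fun hg => hP.2 ?_⟩
  have h2 := pair_kp (K := K) (L := 2 * n) hHq hH1 (even_two_mul n) (by omega) B hB ψ hψ f hf ε hε hsg T hT (hR1.trans hden)
    δ hδ0.le P hg s t hs ht
  refine h2.trans ?_
  rw [← hE]
  have h3 : 32 * B ^ 3 * T ^ 3 / (ε * dn H f) ≤ γ / 3 := by
    rw [div_le_iff₀ (by positivity)] at hR2
    rw [div_le_div_iff₀ (by positivity) (by norm_num)]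
    have := mul_le_mul_of_nonneg_right hden (by positivity : 0 ≤ ε * γ)
    linarith
  have h4 : 4 * (1 / 2 : ℝ) ^ (2 * n) * E ≤ γ / 3 := by
    have h5 : (1 / 2 : ℝ) ^ (2 * n) ≤ (1 / 2 : ℝ) ^ n :=
      pow_le_pow_of_le_one (by norm_num) (by norm_num) (by omega)
    have h6 := h5.trans hn.le
    calc 4 * (1 / 2 : ℝ) ^ (2 * n) * E ≤ 4 * (γ / (12 * E)) * E := by gcongr
      _ = γ / 3 := by
          field_simp
          ring
  linarith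

/-- the average over all the pairs of a dense set -/
lemma avg_kp (ε V B : ℝ) (hε : 0 < ε) (hV0 : 0 ≤ V) (hB : 1 ≤ B) (T γ : ℝ) (hT : 1 ≤ T) (hγ : 0 < γ) :
    ∃ K₀ : ℕ, 1 ≤ K₀ ∧ ∀ K ≥ K₀, ∀ H ≥ K₀, ∀ (q : ℕ) [Fact q.Prime], H < q → ∀ ψ : ℕ → ZMod q → ℝ, Test q H B ψ →
    ∀ X ≥ H, ∀ f : ℕ → ℝ, (∀ d, |f d| ≤ 1) →
    ∑ d ∈ Ico 1 H, |f (d + 1) - f d| ≤ V → ε ≤ sg H f → ∀ A ⊆ Icc X (2 * X), ε * X ≤ #A → ∀ s t : ℝ, |s| ≤ T → |t| ≤ T →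
    ‖(∑ n ∈ A, ∑ n' ∈ A, EP (fun c : Fin K → ZMod q => cexp (((s * ZP H f ψ c n + t * ZP H f ψ c n' : ℝ) : ℂ) * I))) /
      (#A : ℂ) ^ 2 - ((Real.exp (-((s ^ 2 + t ^ 2) / 2)) : ℝ) : ℂ)‖ ≤ γ := by
  classical
  obtain ⟨γ', hγ'⟩ : ∃ γ' : ℝ, γ' = γ / (1 + 2 / ε ^ 2) := ⟨_, rfl⟩
  have hγ'0 : 0 < γ' := by rw [hγ']; positivity
  obtain ⟨K₀, hK1, h1⟩ := main_kp ε V B hε hV0 hB T γ' hT hγ'0
  refine ⟨K₀, hK1, fun K hK H hH q hq hHq ψ hψ X hX f hf hV hsg A hA hAc s t hs ht => ?_⟩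
  have h2 := h1 K hK H hH q hHq ψ hψ X hX f hf hV hsg s t hs ht
  have hH1 : 1 ≤ H := by omega
  have hX0 : (0 : ℝ) < X := by exact_mod_cast (by omega : 0 < X)
  have hA0 : (0 : ℝ) < #A := lt_of_lt_of_le (by positivity) hAc
  have hAc0 : ((#A : ℝ) : ℂ) ≠ 0 := by exact_mod_cast hA0.ne'
  obtain ⟨w, hw⟩ : ∃ w : ℂ, w = ((Real.exp (-((s ^ 2 + t ^ 2) / 2)) : ℝ) : ℂ) := ⟨_, rfl⟩
  have hw1 : ‖w‖ ≤ 1 := by
    rw [hw, Complex.norm_real, Real.norm_of_nonneg (Real.exp_pos _).le, Real.exp_le_one_iff]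
    have : 0 ≤ (s ^ 2 + t ^ 2) / 2 := by positivity
    linarith
  obtain ⟨E, hE⟩ : ∃ E : ℕ × ℕ → ℂ, ∀ P, E P = EP (fun c : Fin K → ZMod q =>
      cexp (((s * ZP H f ψ c P.1 + t * ZP H f ψ c P.2 : ℝ) : ℂ) * I)) := ⟨_, fun _ => rfl⟩
  have hE1 : ∀ P, ‖E P‖ ≤ 1 := by
    intro P
    rw [hE]
    apply EP_norm
    intro c
    rw [Complex.norm_exp_ofReal_mul_I]
  rw [← hw] at h2 ⊢
  simp only [← hE] at h2
  have e1 : (∑ n ∈ A, ∑ n' ∈ A, EP (fun c : Fin K → ZMod q => cexp (((s * ZP H f ψ c n + t * ZP H f ψ c n' : ℝ) : ℂ) * I))) /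
      (#A : ℂ) ^ 2 - w = (∑ P ∈ A ×ˢ A, (E P - w)) / ((#A : ℝ) : ℂ) ^ 2 := by
    rw [sum_sub_distrib, sum_product, sum_const, card_product, nsmul_eq_mul, sub_div]
    simp only [hE]
    congr 1
    push_cast at hAc0 ⊢
    rw [eq_div_iff (pow_ne_zero 2 hAc0)]
    ring
  rw [e1, norm_div, norm_pow, Complex.norm_real, Real.norm_of_nonneg hA0.le, div_le_iff₀ (by positivity)]
  have h3 : ∀ P ∈ A ×ˢ A, ‖E P - w‖ ≤ γ' + (if ¬ ‖E P - w‖ ≤ γ' then 2 else 0) := by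
    intro P _
    by_cases h5 : ‖E P - w‖ ≤ γ'
    · rw [if_neg (not_not.2 h5)]
      linarith
    · rw [if_pos h5]
      have : ‖E P - w‖ ≤ 2 := (norm_sub_le _ _).trans (by linarith [hE1 P])
      linarith
  refine (norm_sum_le _ _).trans ((sum_le_sum h3).trans ?_)
  rw [sum_add_distrib, ← sum_filter, sum_const, sum_const, nsmul_eq_mul, nsmul_eq_mul, card_product]
  have h6 : (#{P ∈ A ×ˢ A | ¬ ‖E P - w‖ ≤ γ'} : ℝ) ≤ γ' * (X : ℝ) ^ 2 := by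
    refine le_trans ?_ h2
    apply Nat.cast_le.2
    apply card_le_card
    apply filter_subset_filter
    exact product_subset_product hA hA
  have h7 : (X : ℝ) ^ 2 ≤ (#A : ℝ) ^ 2 / ε ^ 2 := by
    rw [le_div_iff₀ (by positivity), ← mul_pow]
    apply pow_le_pow_left₀ (by positivity)
    linarith
  have h8 : γ' * (1 + 2 / ε ^ 2) = γ := by
    rw [hγ']
    field_simp
  calc ((#A * #A : ℕ) : ℝ) * γ' + (#{P ∈ A ×ˢ A | ¬ ‖E P - w‖ ≤ γ'} : ℝ) * 2 ≤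
      (#A : ℝ) ^ 2 * γ' + (γ' * ((#A : ℝ) ^ 2 / ε ^ 2)) * 2 := by
        have h9 := mul_le_mul_of_nonneg_left h7 hγ'0.le
        push_cast
        have h10 : (#A : ℝ) * #A = (#A : ℝ) ^ 2 := by ring
        rw [h10]
        linarith
    _ = (γ' * (1 + 2 / ε ^ 2)) * (#A : ℝ) ^ 2 := by ring
    _ = γ * (#A : ℝ) ^ 2 := by rw [h8]

/-- the average of the product of two characteristic functions -/
lemma ch_mulp {K q : ℕ} [NeZero q] (A : Finset ℕ) (Z : (Fin K → ZMod q) → ℕ → ℝ) (s t : ℝ) :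
    ∑ c ∈ (univ : Finset (Fin K → ZMod q)), (((Fintype.card (Fin K → ZMod q) : ℝ)⁻¹ : ℝ) : ℂ) * (ch A (Z c) s * ch A (Z c) t) =
    (∑ n ∈ A, ∑ n' ∈ A, EP (fun c : Fin K → ZMod q => cexp (((s * Z c n + t * Z c n' : ℝ) : ℂ) * I))) / (#A : ℂ) ^ 2 := by
  unfold EP ch
  have e1 : ∀ c : Fin K → ZMod q, (((Fintype.card (Fin K → ZMod q) : ℝ)⁻¹ : ℝ) : ℂ) *
      ((∑ n ∈ A, cexp (((s * Z c n : ℝ) : ℂ) * I)) / #A * ((∑ n ∈ A, cexp (((t * Z c n : ℝ) : ℂ) * I)) / #A)) =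
      (∑ n ∈ A, ∑ n' ∈ A, cexp (((s * Z c n + t * Z c n' : ℝ) : ℂ) * I) / (Fintype.card (Fin K → ZMod q) : ℂ)) /
        (#A : ℂ) ^ 2 := by
    intro c
    rw [div_mul_div_comm, sum_mul_sum, mul_div_assoc', mul_sum, sq]
    congr 1
    apply sum_congr rfl
    intro n _
    rw [mul_sum]
    apply sum_congr rfl
    intro n' _
    rw [← Complex.exp_add, mul_comm, Complex.ofReal_inv, ← div_eq_mul_inv]
    push_cast
    congr 2
    ring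
  rw [sum_congr rfl (fun c _ => e1 c), ← sum_div]
  congr 1
  rw [sum_comm]
  apply sum_congr rfl
  intro n _
  rw [sum_comm]
  apply sum_congr rfl
  intro n' _
  rw [sum_div]

/-- the law of the twisted sum on any dense set, for almost all the polynomials -/
theorem partP (ε V B : ℝ) (hε : 0 < ε) (hV0 : 0 ≤ V) (hB : 1 ≤ B) : ∃ K₀ : ℕ, 1 ≤ K₀ ∧ ∀ K ≥ K₀, ∀ H ≥ K₀,
    ∀ (q : ℕ) [Fact q.Prime], H < q → ∀ ψ : ℕ → ZMod q → ℝ, Test q H B ψ → ∀ X ≥ H,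
    ∀ f : ℕ → ℝ, (∀ d, |f d| ≤ 1) → ∑ d ∈ Ico 1 H, |f (d + 1) - f d| ≤ V → ε ≤ sg H f →
    ∀ A ⊆ Icc X (2 * X), ε * X ≤ #A →
    (open Classical in (#{c : Fin K → ZMod q | ¬ ∀ t, |df A (ZP H f ψ c) t - Phi t| ≤ ε} : ℝ)) ≤
      ε * Fintype.card (Fin K → ZMod q) := by
  classical
  by_contra hcon
  push Not at hcon
  have hc : ∀ m : ℕ, ∃ K ≥ m + 1, ∃ H ≥ m + 1, ∃ (q : ℕ) (_ : Fact q.Prime), H < q ∧ ∃ ψ : ℕ → ZMod q → ℝ, Test q H B ψ ∧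
      ∃ X ≥ H, ∃ f : ℕ → ℝ, (∀ d, |f d| ≤ 1) ∧ ∑ d ∈ Ico 1 H, |f (d + 1) - f d| ≤ V ∧ ε ≤ sg H f ∧
      ∃ A ⊆ Icc X (2 * X), ε * X ≤ #A ∧ ε * Fintype.card (Fin K → ZMod q) <
        (#{c : Fin K → ZMod q | ¬ ∀ t, |df A (ZP H f ψ c) t - Phi t| ≤ ε} : ℝ) := by
    intro m
    obtain ⟨K, hK, H, hH, q, hq, hHq, ψ, hψ, X, hX, f, hf, hV, hsg, A, hA, hAc, hb⟩ := hcon (m + 1) (by omega)
    refine ⟨K, hK, H, hH, q, hq, hHq, ψ, hψ, X, hX, f, hf, hV, hsg, A, hA, hAc, lt_of_lt_of_le hb (le_of_eq ?_)⟩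
    congr 2
    ext c
    simp only [mem_filter, mem_univ, true_and, not_forall, not_le]
  choose K hK H hH q hq hHq ψ hψ X hX f hf hV hsg A hA hAc hbad using hc
  have hXp : ∀ m, (0 : ℝ) < X m := by
    intro m
    have := (hH m).trans (hX m)
    exact_mod_cast (by omega : 0 < X m)
  have hAn : ∀ m, (A m).Nonempty := by
    intro m
    rw [← card_pos]
    have h1 := hXp m
    have h2 : (0 : ℝ) < #(A m) := lt_of_lt_of_le (by positivity) (hAc m)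
    exact_mod_cast h2
  have hcard : ∀ m, (0 : ℝ) < Fintype.card (Fin (K m) → ZMod (q m)) := fun m => by exact_mod_cast Fintype.card_pos
  obtain ⟨M, hM⟩ := law3 (ι := fun m => Fin (K m) → ZMod (q m)) (fun m => univ)
    (fun m _ => (Fintype.card (Fin (K m) → ZMod (q m)) : ℝ)⁻¹)
    (fun m c _ => by positivity) (fun m => by
      rw [sum_const, card_univ, nsmul_eq_mul]
      exact mul_inv_cancel₀ (hcard m).ne') A hAn (fun m c => ZP (H m) (f m) (ψ m) c) (by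
      intro s t
      rw [Metric.tendsto_atTop]
      intro γ hγ
      obtain ⟨T, hT⟩ : ∃ T : ℝ, T = 1 + |s| + |t| := ⟨_, rfl⟩
      have hs0 := abs_nonneg s
      have ht0 := abs_nonneg t
      obtain ⟨K₀, hK1, hK₀⟩ := avg_kp ε V B hε hV0 hB T (γ / 2) (by linarith) (by positivity)
      refine ⟨K₀, fun m hm => ?_⟩
      have h1 := hK₀ (K m) ((hK m).le.trans' (by omega)) (H m) ((hH m).le.trans' (by omega)) (q m) (hHq m) (ψ m) (hψ m)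
        (X m) (hX m) (f m) (hf m) (hV m) (hsg m) (A m) (hA m) (hAc m) s t (by linarith) (by linarith)
      rw [ch_mulp, dist_eq_norm]
      linarith) ε hε
  have h1 := hM M le_rfl
  have h2 : ∑ c ∈ (univ : Finset (Fin (K M) → ZMod (q M))),
      (if ∀ t, |df (A M) (ZP (H M) (f M) (ψ M) c) t - Phi t| ≤ ε then 0 else (Fintype.card (Fin (K M) → ZMod (q M)) : ℝ)⁻¹) =
      (#{c : Fin (K M) → ZMod (q M) | ¬ ∀ t, |df (A M) (ZP (H M) (f M) (ψ M) c) t - Phi t| ≤ ε} : ℝ) /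
        (Fintype.card (Fin (K M) → ZMod (q M)) : ℝ) := by
    rw [sum_ite, sum_const_zero, zero_add, sum_const, nsmul_eq_mul, ← div_eq_mul_inv]
  exact absurd h1 (not_le.2 (by
    refine lt_of_lt_of_eq ?_ h2.symm
    rw [lt_div_iff₀ (hcard M)]
    exact hbad M))

end Pool.Agent.J4.H36.KP
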