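import Pool.Agent.J4.H36.MG.Law2

set_option autoImplicit false

/-! Closeness to the complex gaussian law in all directions follows from finitely many directions. -/

namespace Pool.Agent.J4.H36.KP
open Finset Filter Topology Complex MeasureTheory ProbabilityTheory
open Pool.Agent.J4.H66.MG (Phi Phi_cont Phi_mono Phi_surj Phi_mem)
open Pool.Agent.J4.H36.MG (df df_mono df_nonneg df_le_one)

lemma Phi_lip (s t : ℝ) (hst : s ≤ t) : Phi t - Phi s ≤ t - s := by
  have h1 : Phi t - Phi s = (gaussianReal 0 1).real (Set.Ioc s t) := by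
    unfold Phi
    rw [← Set.Iic_sdiff_Iic, measureReal_diff (Set.Iic_subset_Iic.2 hst) measurableSet_Iic]
  rw [h1]
  unfold Measure.real
  have h2 : gaussianReal 0 1 (Set.Ioc s t) ≤ ENNReal.ofReal (t - s) := by
    rw [gaussianReal_apply 0 one_ne_zero]
    calc ∫⁻ x in Set.Ioc s t, gaussianPDF 0 1 x ≤ ∫⁻ x in Set.Ioc s t, 1 := by
          apply lintegral_mono
          intro x
          unfold gaussianPDF
          rw [← ENNReal.ofReal_one]
          apply ENNReal.ofReal_le_ofReal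
          unfold gaussianPDFReal
          have h3 : (1 : ℝ) ≤ Real.sqrt (2 * Real.pi * (1 : NNReal)) := by
            apply Real.le_sqrt_of_sq_le
            have := Real.pi_gt_three
            norm_num
            linarith
          have h4 : (Real.sqrt (2 * Real.pi * (1 : NNReal)))⁻¹ ≤ 1 := inv_le_one_of_one_le₀ h3
          have h5 : Real.exp (-(x - 0) ^ 2 / (2 * ((1 : NNReal) : ℝ))) ≤ 1 := by
            rw [Real.exp_le_one_iff, NNReal.coe_one]
            have : 0 ≤ (x - 0) ^ 2 := sq_nonneg _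
            linarith
          exact mul_le_one₀ h4 (Real.exp_pos _).le h5
      _ = ENNReal.ofReal (t - s) := by
          rw [lintegral_one, Measure.restrict_apply MeasurableSet.univ, Set.univ_inter, Real.volume_Ioc]
  exact ENNReal.toReal_le_of_le_ofReal (by linarith) h2

/-- the mass outside of an interval -/
lemma tail (κ : ℝ) (hκ : 0 < κ) (hκ1 : κ < 1) : ∃ R : ℝ, 1 ≤ R ∧ ∀ (A : Finset ℕ) (Z : ℕ → ℝ), A.Nonempty →
    (∀ t, |df A Z t - Phi t| ≤ κ) → (#{n ∈ A | R < |Z n|} : ℝ) ≤ 4 * κ * #A := by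
  obtain ⟨a, ha⟩ := Phi_surj κ hκ hκ1
  obtain ⟨b, hb⟩ := Phi_surj (1 - κ) (by linarith) (by linarith)
  refine ⟨1 + |a| + |b|, by linarith [abs_nonneg a, abs_nonneg b], fun A Z hA h => ?_⟩
  obtain ⟨R, hR⟩ : ∃ R : ℝ, R = 1 + |a| + |b| := ⟨_, rfl⟩
  rw [← hR]
  have hA0 : (0 : ℝ) < #A := by exact_mod_cast card_pos.2 hA
  have h1 : df A Z (-R) ≤ 2 * κ := by
    have h2 := (abs_le.1 (h (-R))).2
    have h3 : Phi (-R) ≤ κ := by
      rw [← ha]
      apply Phi_mono
      linarith [neg_abs_le a, abs_nonneg b]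
    linarith
  have h2 : 1 - 2 * κ ≤ df A Z R := by
    have h2 := (abs_le.1 (h R)).1
    have h3 : 1 - κ ≤ Phi R := by
      rw [← hb]
      apply Phi_mono
      linarith [le_abs_self b, abs_nonneg a]
    linarith
  unfold df at h1 h2
  rw [div_le_iff₀ hA0] at h1
  rw [le_div_iff₀ hA0] at h2
  have h3 : #{n ∈ A | R < |Z n|} + #{n ∈ A | Z n ≤ R} ≤ #A + #{n ∈ A | Z n ≤ -R} := by
    have e1 : {n ∈ A | R < |Z n|} ⊆ {n ∈ A | Z n ≤ -R} ∪ {n ∈ A | ¬ Z n ≤ R} := by
      intro n hn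
      rw [mem_filter] at hn
      rw [mem_union, mem_filter, mem_filter]
      rcases lt_abs.1 hn.2 with h4 | h4
      · exact Or.inr ⟨hn.1, not_le.2 h4⟩
      · exact Or.inl ⟨hn.1, by linarith⟩
    have e2 := card_le_card e1
    have e3 := card_union_le {n ∈ A | Z n ≤ -R} {n ∈ A | ¬ Z n ≤ R}
    have e4 := card_filter_add_card_filter_not (s := A) (fun n => Z n ≤ R)
    omega
  have h4 : (#{n ∈ A | R < |Z n|} : ℝ) + #{n ∈ A | Z n ≤ R} ≤ #A + #{n ∈ A | Z n ≤ -R} := by exact_mod_cast h3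
  linarith

/-- finitely many directions suffice -/
lemma net (ε : ℝ) (hε : 0 < ε) : ∃ (U : Finset ℂ) (κ : ℝ), 0 < κ ∧ (∀ u ∈ U, ‖u‖ = 1) ∧ ∀ (A : Finset ℕ) (Z : ℕ → ℂ),
    A.Nonempty → (∀ u ∈ U, ∀ t, |df A (fun n => (u * Z n).re) t - Phi t| ≤ κ) →
    ∀ u : ℂ, ‖u‖ = 1 → ∀ t, |df A (fun n => (u * Z n).re) t - Phi t| ≤ ε := by
  classical
  obtain ⟨κ, hκ⟩ : ∃ κ : ℝ, κ = min (1 / 2) (ε / 18) := ⟨_, rfl⟩
  have hκ0 : 0 < κ := by rw [hκ]; positivity
  have hκ1 : κ ≤ 1 / 2 := by rw [hκ]; exact min_le_left _ _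
  have hκ2 : κ ≤ ε / 18 := by rw [hκ]; exact min_le_right _ _
  obtain ⟨R, hR1, hR⟩ := tail κ hκ0 (by linarith)
  obtain ⟨δ, hδ⟩ : ∃ δ : ℝ, δ = ε / (4 * R) := ⟨_, rfl⟩
  have hδ0 : 0 < δ := by rw [hδ]; positivity
  obtain ⟨T, hTs, hTf, hTc⟩ := (isCompact_sphere (0 : ℂ) 1).finite_cover_balls hδ0
  refine ⟨hTf.toFinset ∪ {1, I}, κ, hκ0, ?_, fun A Z hA h u hu t => ?_⟩
  · intro u hu
    rw [mem_union, Set.Finite.mem_toFinset, mem_insert, mem_singleton] at hu
    rcases hu with hu | hu | hu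
    · have := hTs hu
      rwa [mem_sphere_zero_iff_norm] at this
    · rw [hu, norm_one]
    · rw [hu, norm_I]
  · have hA0 : (0 : ℝ) < #A := by exact_mod_cast card_pos.2 hA
    have h1 : (#{n ∈ A | R < |(Z n).re|} : ℝ) ≤ 4 * κ * #A := by
      have := hR A (fun n => ((1 : ℂ) * Z n).re) hA (h 1 (by simp))
      simpa only [one_mul] using this
    have h2 : (#{n ∈ A | R < |(Z n).im|} : ℝ) ≤ 4 * κ * #A := by
      have := hR A (fun n => (I * Z n).re) hA (h I (by simp))
      have e : ∀ n, (I * Z n).re = -(Z n).im := by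
        intro n
        simp
      simpa only [e, abs_neg] using this
    obtain ⟨v, hv, huv⟩ : ∃ v ∈ T, ‖u - v‖ < δ := by
      have h3 : u ∈ Metric.sphere (0 : ℂ) 1 := by rwa [mem_sphere_zero_iff_norm]
      have h4 := hTc h3
      rw [Set.mem_iUnion₂] at h4
      obtain ⟨v, hv, h5⟩ := h4
      exact ⟨v, hv, by rwa [Metric.mem_ball, dist_eq_norm] at h5⟩
    have hv' := h v (by
      rw [mem_union, Set.Finite.mem_toFinset]
      exact Or.inl hv)
    -- the exceptional set
    obtain ⟨E, hE⟩ : ∃ E : Finset ℕ, E = {n ∈ A | R < |(Z n).re|} ∪ {n ∈ A | R < |(Z n).im|} := ⟨_, rfl⟩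
    have hEc : (#E : ℝ) ≤ 8 * κ * #A := by
      have h3 : #E ≤ #{n ∈ A | R < |(Z n).re|} + #{n ∈ A | R < |(Z n).im|} := by
        rw [hE]
        exact card_union_le _ _
      have h4 : (#E : ℝ) ≤ #{n ∈ A | R < |(Z n).re|} + #{n ∈ A | R < |(Z n).im|} := by exact_mod_cast h3
      linarith
    have hclose : ∀ n ∈ A, n ∉ E → |(u * Z n).re - (v * Z n).re| ≤ ε / 2 := by
      intro n hn hnE
      rw [hE, mem_union, mem_filter, mem_filter] at hnE
      push Not at hnE
      have a1 := hnE.1 hn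
      have a2 := hnE.2 hn
      have a3 : ‖Z n‖ ≤ 2 * R := (Complex.norm_le_abs_re_add_abs_im _).trans (by linarith)
      rw [← Complex.sub_re, ← sub_mul]
      refine (Complex.abs_re_le_norm _).trans ?_
      rw [norm_mul]
      calc ‖u - v‖ * ‖Z n‖ ≤ δ * (2 * R) := mul_le_mul huv.le a3 (norm_nonneg _) hδ0.le
        _ = ε / 2 := by
            rw [hδ]
            field_simp
            norm_num
    have up : df A (fun n => (u * Z n).re) t ≤ df A (fun n => (v * Z n).re) (t + ε / 2) + 8 * κ := by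
      unfold df
      rw [div_le_iff₀ hA0, add_mul, div_mul_cancel₀ _ hA0.ne']
      have h3 : #{n ∈ A | (u * Z n).re ≤ t} ≤ #{n ∈ A | (v * Z n).re ≤ t + ε / 2} + #E := by
        refine (card_le_card ?_).trans (card_union_le _ _)
        intro n hn
        rw [mem_filter] at hn
        rw [mem_union, mem_filter]
        by_cases hnE : n ∈ E
        · exact Or.inr hnE
        · left
          have := (abs_le.1 (hclose n hn.1 hnE)).1
          exact ⟨hn.1, by linarith [hn.2]⟩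
      have h4 : (#{n ∈ A | (u * Z n).re ≤ t} : ℝ) ≤ #{n ∈ A | (v * Z n).re ≤ t + ε / 2} + #E := by exact_mod_cast h3
      linarith
    have lo : df A (fun n => (v * Z n).re) (t - ε / 2) ≤ df A (fun n => (u * Z n).re) t + 8 * κ := by
      unfold df
      rw [div_le_iff₀ hA0, add_mul, div_mul_cancel₀ _ hA0.ne']
      have h3 : #{n ∈ A | (v * Z n).re ≤ t - ε / 2} ≤ #{n ∈ A | (u * Z n).re ≤ t} + #E := by
        refine (card_le_card ?_).trans (card_union_le _ _)
        intro n hn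
        rw [mem_filter] at hn
        rw [mem_union, mem_filter]
        by_cases hnE : n ∈ E
        · exact Or.inr hnE
        · left
          have := (abs_le.1 (hclose n hn.1 hnE)).2
          exact ⟨hn.1, by linarith [hn.2]⟩
      have h4 : (#{n ∈ A | (v * Z n).re ≤ t - ε / 2} : ℝ) ≤ #{n ∈ A | (u * Z n).re ≤ t} + #E := by exact_mod_cast h3
      linarith
    have b1 := (abs_le.1 (hv' (t + ε / 2))).2
    have b2 := (abs_le.1 (hv' (t - ε / 2))).1
    have b3 := Phi_lip t (t + ε / 2) (by linarith)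
    have b4 := Phi_lip (t - ε / 2) t (by linarith)
    rw [abs_le]
    constructor <;> linarith

end Pool.Agent.J4.H36.KP
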