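import Pool.Agent.J4.H36.KP.Main
import Pool.Agent.J4.H36.KP.Net

set_option autoImplicit false

/-! Twists by real polynomial phases. -/

namespace Pool.Agent.J4.H36.KP
open Finset Filter Topology Complex MeasureTheory ProbabilityTheory
open Pool.Agent.J4.H66.MG (mu mu_abs cc cc_pos cc_half cc_one sg Phi)
open Pool.Agent.J4.H36.MG (df df_mono df_nonneg df_le_one grid)

/-- the value of a polynomial without constant term on the torus -/
noncomputable def PV {K : ℕ} (α : Fin K → UnitAddCircle) (d : ℕ) : UnitAddCircle := ∑ i : Fin K, (d ^ ((i : ℕ) + 1)) • α i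

/-- the phase -/
noncomputable def EV {K : ℕ} (α : Fin K → UnitAddCircle) (d : ℕ) : ℂ := (AddCircle.toCircle (PV α d) : ℂ)

lemma EV_norm {K : ℕ} (α : Fin K → UnitAddCircle) (d : ℕ) : ‖EV α d‖ = 1 := Circle.norm_coe _

/-- the shift of a point by a rational point -/
noncomputable def sh {K q : ℕ} [NeZero q] (c : Fin K → ZMod q) : Fin K → UnitAddCircle := fun i => ZMod.toAddCircle (c i)

lemma PV_sh {K q : ℕ} [NeZero q] (β : Fin K → UnitAddCircle) (c : Fin K → ZMod q) (d : ℕ) :
    PV (β + sh c) d = PV β d + ZMod.toAddCircle (val c d) := by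
  unfold PV val sh
  rw [map_sum, ← sum_add_distrib]
  apply sum_congr rfl
  intro i _
  rw [Pi.add_apply, nsmul_add]
  congr 1
  rw [← map_nsmul, nsmul_eq_mul, mul_comm]
  congr 2
  push_cast
  rfl

lemma EV_sh {K q : ℕ} [NeZero q] (β : Fin K → UnitAddCircle) (c : Fin K → ZMod q) (d : ℕ) :
    EV (β + sh c) d = EV β d * ZMod.stdAddChar (val c d) := by
  unfold EV
  rw [PV_sh, AddCircle.toCircle_add, Circle.coe_mul, ZMod.stdAddChar_apply]
  rfl

/-- the test functions -/
noncomputable def tw {K q : ℕ} [NeZero q] (β : Fin K → UnitAddCircle) (u : ℂ) (d : ℕ) (z : ZMod q) : ℝ :=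
  Real.sqrt 2 * (u * (EV β d * ZMod.stdAddChar z)).re

lemma sum_char (q : ℕ) [Fact q.Prime] (b : ZMod q) (hb : b ≠ 0) : ∑ z : ZMod q, ZMod.stdAddChar (z * b) = (0 : ℂ) := by
  have h := AddChar.sum_mulShift (R := ZMod q) b (ZMod.isPrimitive_stdAddChar q)
  rw [if_neg hb] at h
  exact_mod_cast h

lemma test_tw {K q H : ℕ} [Fact q.Prime] (hq : 3 ≤ q) (β : Fin K → UnitAddCircle) (u : ℂ) (hu : ‖u‖ = 1) :
    Test q H 2 (tw β u) := by
  have h2 : (2 : ZMod q) ≠ 0 := by
    intro h
    have h3 : ((2 : ℕ) : ZMod q) = 0 := by exact_mod_cast h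
    rw [ZMod.natCast_eq_zero_iff] at h3
    have := Nat.le_of_dvd (by norm_num) h3
    omega
  refine ⟨?_, ?_, ?_⟩
  · intro d _
    unfold tw
    rw [← mul_sum, ← Complex.re_sum, ← mul_sum, ← mul_sum]
    have := sum_char q 1 one_ne_zero
    simp only [mul_one] at this
    rw [this]
    simp
  · intro d _
    have e1 : ∀ z : ZMod q, tw β u d z ^ 2 = 1 + ((u * EV β d) ^ 2 * ZMod.stdAddChar (z * 2)).re := by
      intro z
      unfold tw
      obtain ⟨w, hw⟩ : ∃ w : ℂ, w = u * (EV β d * ZMod.stdAddChar z) := ⟨_, rfl⟩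
      have e2 : (u * EV β d) ^ 2 * ZMod.stdAddChar (z * 2) = w ^ 2 := by
        rw [hw, mul_two, AddChar.map_add_eq_mul]
        ring
      have e3 : ‖w‖ = 1 := by
        rw [hw, norm_mul, norm_mul, hu, EV_norm, ZMod.stdAddChar_apply, Circle.norm_coe]
        norm_num
      have e4 : w.re ^ 2 + w.im ^ 2 = 1 := by
        have := Complex.sq_norm w
        rw [e3, Complex.normSq_apply] at this
        linarith
      rw [← hw, e2, mul_pow, Real.sq_sqrt (by norm_num), sq w, Complex.mul_re]
      linarith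
    rw [sum_congr rfl (fun z _ => e1 z), sum_add_distrib, ← Complex.re_sum, ← mul_sum, sum_char q 2 h2]
    simp [ZMod.card]
  · intro d _ z
    unfold tw
    rw [abs_mul, abs_of_nonneg (Real.sqrt_nonneg _)]
    have e3 : |(u * (EV β d * ZMod.stdAddChar z)).re| ≤ 1 := by
      refine (Complex.abs_re_le_norm _).trans ?_
      rw [norm_mul, norm_mul, hu, EV_norm, ZMod.stdAddChar_apply, Circle.norm_coe]
      norm_num
    have e4 : Real.sqrt 2 ≤ 2 := by
      rw [Real.sqrt_le_left (by norm_num)]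
      norm_num
    calc Real.sqrt 2 * |(u * (EV β d * ZMod.stdAddChar z)).re| ≤ 2 * 1 :=
          mul_le_mul e4 e3 (abs_nonneg _) (by norm_num)
      _ = 2 := by norm_num

/-- the normalised complex sum -/
noncomputable def ZC {K : ℕ} (H : ℕ) (f : ℕ → ℝ) (α : Fin K → UnitAddCircle) (n : ℕ) : ℂ :=
  (∑ d ∈ Icc 1 H, (f d : ℂ) * EV α d * mu (n + d)) * ((Real.sqrt 2 / dn H f : ℝ) : ℂ)

lemma ZC_re {K q H : ℕ} [NeZero q] (f : ℕ → ℝ) (β : Fin K → UnitAddCircle) (c : Fin K → ZMod q) (u : ℂ) (n : ℕ) :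
    (u * ZC H f (β + sh c) n).re = ZP H f (tw β u) c n := by
  unfold ZC ZP tw
  rw [← mul_assoc, Complex.re_mul_ofReal, mul_sum, Complex.re_sum, sum_mul, sum_div]
  apply sum_congr rfl
  intro d _
  rw [EV_sh]
  have e : u * ((f d : ℂ) * (EV β d * ZMod.stdAddChar (val c d)) * mu (n + d)) =
      (u * (EV β d * ZMod.stdAddChar (val c d))) * ((f d * mu (n + d) : ℝ) : ℂ) := by
    push_cast
    ring
  rw [e, Complex.re_mul_ofReal]
  ring

lemma ZC_meas {K : ℕ} (H : ℕ) (f : ℕ → ℝ) (n : ℕ) : Measurable (fun α : Fin K → UnitAddCircle => ZC H f α n) := by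
  apply Continuous.measurable
  unfold ZC EV PV
  have h1 : ∀ d : ℕ, Continuous (fun α : Fin K → UnitAddCircle => ∑ i : Fin K, (d ^ ((i : ℕ) + 1)) • α i) := by
    intro d
    fun_prop
  have h2 : ∀ d : ℕ, Continuous (fun α : Fin K → UnitAddCircle =>
      ((AddCircle.toCircle (∑ i : Fin K, (d ^ ((i : ℕ) + 1)) • α i) : Circle) : ℂ)) := by
    intro d
    exact continuous_subtype_val.comp (AddCircle.continuous_toCircle.comp (h1 d))
  refine Continuous.mul ?_ continuous_const
  refine continuous_finsetSum _ (fun d _ => ?_)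
  exact (continuous_const.mul (h2 d)).mul continuous_const

lemma df_meas {K : ℕ} (A : Finset ℕ) (Z : (Fin K → UnitAddCircle) → ℕ → ℝ) (hZ : ∀ n, Measurable (fun α => Z α n)) (t : ℝ) :
    Measurable (fun α => df A (Z α) t) := by
  classical
  unfold df
  apply Measurable.div_const
  have e : ∀ α, (#{n ∈ A | Z α n ≤ t} : ℝ) = ∑ n ∈ A, if Z α n ≤ t then (1 : ℝ) else 0 := by
    intro α
    rw [sum_boole]
  simp only [e]
  apply Finset.measurable_fun_sum
  intro n _
  exact Measurable.ite (measurableSet_le (hZ n) measurable_const) measurable_const measurable_const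

/-- the law of the sum twisted by a random real polynomial phase, on the torus -/
theorem partT (ε V : ℝ) (hε : 0 < ε) (hV0 : 0 ≤ V) : ∃ K₀ : ℕ, 1 ≤ K₀ ∧ ∀ K ≥ K₀, ∀ H ≥ K₀, ∀ X ≥ H,
    ∀ f : ℕ → ℝ, (∀ d, |f d| ≤ 1) → ∑ d ∈ Ico 1 H, |f (d + 1) - f d| ≤ V → ε ≤ sg H f →
    ∀ A ⊆ Icc X (2 * X), ε * X ≤ #A →
    ∃ B : Set (Fin K → UnitAddCircle), MeasurableSet B ∧ volume B ≤ ENNReal.ofReal ε ∧ ∀ α, α ∉ B →
      ∀ u : ℂ, ‖u‖ = 1 → ∀ t, |df A (fun n => (u * ZC H f α n).re) t - Phi t| ≤ ε := by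
  classical
  obtain ⟨U, κ, hκ, hU, hnet⟩ := net ε hε
  obtain ⟨S, κ', hκ', hS⟩ := grid κ hκ
  obtain ⟨ε₁, hε₁⟩ : ∃ ε₁ : ℝ, ε₁ = min ε (min κ' (ε / (#U + 1))) := ⟨_, rfl⟩
  have hU0 : (0 : ℝ) < #U + 1 := by positivity
  have hε10 : 0 < ε₁ := by rw [hε₁]; positivity
  have hε1ε : ε₁ ≤ ε := by rw [hε₁]; exact min_le_left _ _
  have hε1κ : ε₁ ≤ κ' := by rw [hε₁]; exact (min_le_right _ _).trans (min_le_left _ _)
  have hε1U : ε₁ ≤ ε / (#U + 1) := by rw [hε₁]; exact (min_le_right _ _).trans (min_le_right _ _)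
  obtain ⟨K₀, hK1, h1⟩ := partP ε₁ V 2 hε10 hV0 (by norm_num)
  refine ⟨K₀, hK1, fun K hK H hH X hX f hf hV hsg A hA hAc => ?_⟩
  have hX0 : (0 : ℝ) < X := by exact_mod_cast (by omega : 0 < X)
  have hAn : A.Nonempty := by
    rw [← card_pos]
    have h2 : (0 : ℝ) < #A := lt_of_lt_of_le (by positivity) hAc
    exact_mod_cast h2
  obtain ⟨M, hM⟩ : ∃ M : ℂ → Set (Fin K → UnitAddCircle), ∀ u, M u = {α | ∃ t ∈ S,
      ¬ |df A (fun n => (u * ZC H f α n).re) t - Phi t| ≤ κ'} := ⟨_, fun _ => rfl⟩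
  have hMm : ∀ u, MeasurableSet (M u) := by
    intro u
    rw [hM]
    have e : {α : Fin K → UnitAddCircle | ∃ t ∈ S, ¬ |df A (fun n => (u * ZC H f α n).re) t - Phi t| ≤ κ'} =
        ⋃ t ∈ S, {α | ¬ |df A (fun n => (u * ZC H f α n).re) t - Phi t| ≤ κ'} := by
      ext α
      simp
    rw [e]
    apply Finset.measurableSet_biUnion
    intro t _
    simp only [not_le]
    apply measurableSet_lt measurable_const
    have h2 := df_meas A (fun (α : Fin K → UnitAddCircle) n => (u * ZC H f α n).re)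
      (fun n => Complex.measurable_re.comp ((ZC_meas H f n).const_mul u)) t
    exact continuous_abs.measurable.comp (h2.sub_const _)
  refine ⟨⋃ u ∈ U, M u, Finset.measurableSet_biUnion _ (fun u _ => hMm u), ?_, ?_⟩
  · -- the measure
    obtain ⟨q, hqp, hq⟩ := Nat.exists_infinite_primes (H + 3)
    have hqf : Fact q.Prime := ⟨hq⟩
    have hcard : (0 : ℝ) < Fintype.card (Fin K → ZMod q) := by exact_mod_cast Fintype.card_pos
    have hone : ∀ u ∈ U, volume (M u) ≤ ENNReal.ofReal ε₁ := by
      intro u hu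
      have h3 : ∀ β : Fin K → UnitAddCircle, (#{c : Fin K → ZMod q | β + sh c ∈ M u} : ℝ) ≤
          ε₁ * Fintype.card (Fin K → ZMod q) := by
        intro β
        refine le_trans ?_ (h1 K hK H hH q (by omega) (tw β u) (test_tw (by omega) β u (hU u hu)) X hX f hf hV
          (hε1ε.trans hsg) A hA ((mul_le_mul_of_nonneg_right hε1ε hX0.le).trans hAc))
        apply Nat.cast_le.2
        apply card_le_card
        intro c hc
        rw [mem_filter] at hc ⊢
        refine ⟨mem_univ _, fun hg => ?_⟩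
        have h4 := hc.2
        rw [hM, Set.mem_ofPred_eq] at h4
        obtain ⟨t, _, ht⟩ := h4
        apply ht
        have e : (fun n => (u * ZC H f (β + sh c) n).re) = ZP H f (tw β u) c := funext fun n => ZC_re f β c u n
        rw [e]
        exact (hg t).trans hε1κ
      have h4 : (Fintype.card (Fin K → ZMod q) : ENNReal) * volume (M u) ≤
          (Fintype.card (Fin K → ZMod q) : ENNReal) * ENNReal.ofReal ε₁ := by
        have e1 : (Fintype.card (Fin K → ZMod q) : ENNReal) * volume (M u) =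
            ∑ c : Fin K → ZMod q, volume ((fun β => β + sh c) ⁻¹' M u) := by
          simp only [measure_preimage_add_right]
          rw [sum_const, card_univ, nsmul_eq_mul]
        have e2 : ∑ c : Fin K → ZMod q, volume ((fun β => β + sh c) ⁻¹' M u) =
            ∫⁻ β : Fin K → UnitAddCircle, ∑ c : Fin K → ZMod q, ((fun β => β + sh c) ⁻¹' M u).indicator 1 β := by
          rw [lintegral_finsetSum]
          · apply sum_congr rfl
            intro c _
            rw [lintegral_indicator_one]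
            exact (measurable_add_const _) (hMm u)
          · intro c _
            exact measurable_one.indicator ((measurable_add_const _) (hMm u))
        have e3 : ∀ β : Fin K → UnitAddCircle, ∑ c : Fin K → ZMod q,
            ((fun β => β + sh c) ⁻¹' M u).indicator (1 : (Fin K → UnitAddCircle) → ENNReal) β ≤
            (Fintype.card (Fin K → ZMod q) : ENNReal) * ENNReal.ofReal ε₁ := by
          intro β
          have e4 : ∑ c : Fin K → ZMod q,
              ((fun β => β + sh c) ⁻¹' M u).indicator (1 : (Fin K → UnitAddCircle) → ENNReal) β =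
              ((#{c : Fin K → ZMod q | β + sh c ∈ M u} : ℕ) : ENNReal) := by
            rw [← sum_boole]
            apply sum_congr rfl
            intro c _
            rw [Set.indicator_apply]
            rfl
          rw [e4, ← ENNReal.ofReal_natCast, ← ENNReal.ofReal_natCast, ← ENNReal.ofReal_mul hcard.le]
          apply ENNReal.ofReal_le_ofReal
          rw [mul_comm]
          exact h3 β
        rw [e1, e2]
        refine (lintegral_mono e3).trans ?_
        have hp1 : IsProbabilityMeasure (volume : Measure UnitAddCircle) := ⟨UnitAddCircle.measure_univ⟩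
        have hp2 : (volume : Measure (Fin K → UnitAddCircle)) Set.univ = 1 := by
          rw [volume_pi]
          exact measure_univ
        rw [lintegral_const, hp2, mul_one]
      have hc0 : (Fintype.card (Fin K → ZMod q) : ENNReal) ≠ 0 := by
        rw [Nat.cast_ne_zero]
        exact Fintype.card_ne_zero
      exact (ENNReal.mul_le_mul_iff_right hc0 (ENNReal.natCast_ne_top _)).1 h4
    calc volume (⋃ u ∈ U, M u) ≤ ∑ u ∈ U, volume (M u) := measure_biUnion_finset_le _ _
      _ ≤ ∑ u ∈ U, ENNReal.ofReal ε₁ := sum_le_sum hone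
      _ = ENNReal.ofReal (#U * ε₁) := by
          rw [sum_const, nsmul_eq_mul, ENNReal.ofReal_mul (by positivity), ENNReal.ofReal_natCast]
      _ ≤ ENNReal.ofReal ε := by
          apply ENNReal.ofReal_le_ofReal
          calc (#U : ℝ) * ε₁ ≤ (#U + 1) * (ε / (#U + 1)) := by
                apply mul_le_mul (by linarith) hε1U hε10.le hU0.le
            _ = ε := by field_simp
  · intro α hα
    apply hnet A (ZC H f α) hAn
    intro u hu
    have h5 : α ∉ M u := fun h => hα (Set.mem_biUnion hu h)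
    rw [hM, Set.mem_ofPred_eq] at h5
    push Not at h5
    exact hS _ (df_mono A _) (df_nonneg A _) (df_le_one A _) h5

end Pool.Agent.J4.H36.KP
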